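import Mathlib

set_option autoImplicit false

/-!
# Project CG, base: first group cohomology and abstract Hecke operators
-/

namespace W529.CG

open scoped BigOperators
open Classical

section Abs

variable (Γ : Type) [Group Γ] (W : Type) [AddCommGroup W] [DistribMulAction Γ W]

/-- 1-cocycles of Γ with values in W. -/
def Z1 : AddSubgroup (Γ → W) where
  carrier := {f | ∀ a b : Γ, f (a * b) = f a + a • f b}
  zero_mem' := by intro a b; simp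
  add_mem' := by
    intro f g hf hg a b
    simp only [Pi.add_apply]
    rw [hf a b, hg a b, smul_add]; abel
  neg_mem' := by
    intro f hf a b
    simp only [Pi.neg_apply]
    rw [hf a b, smul_neg]; abel

/-- 1-coboundaries, as a subgroup of the cocycles. -/
def B1 : AddSubgroup (Z1 Γ W) where
  carrier := {f | ∃ w : W, ∀ a : Γ, f.1 a = a • w - w}
  zero_mem' := ⟨0, by intro a; simp⟩
  add_mem' := by
    rintro f g ⟨w, hw⟩ ⟨w', hw'⟩
    refine ⟨w + w', fun a => ?_⟩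
    show f.1 a + g.1 a = _
    rw [hw, hw', smul_add]; abel
  neg_mem' := by
    rintro f ⟨w, hw⟩
    refine ⟨-w, fun a => ?_⟩
    show - f.1 a = _
    rw [hw, smul_neg]; abel

/-- The first cohomology group of Γ with values in W. -/
def H1 : Type := (Z1 Γ W) ⧸ (B1 Γ W)

noncomputable instance : AddCommGroup (H1 Γ W) := by unfold H1; infer_instance

/-- The class of a cocycle. -/
def H1.mk : Z1 Γ W →+ H1 Γ W := QuotientAddGroup.mk' (B1 Γ W)

/-- The invariants of Γ in W. -/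
def H0 : AddSubgroup W where
  carrier := {w | ∀ a : Γ, a • w = w}
  zero_mem' := by intro a; simp
  add_mem' := by intro v w hv hw a; rw [smul_add, hv a, hw a]
  neg_mem' := by intro v hv a; rw [smul_neg, hv a]

variable {Γ W}

/-- The element `s_q⁻¹ γ s_{γ⁻¹ q}` of Δ, where `s_q` is the chosen representative of the
left coset `q`. -/
noncomputable def tw (Δ : Subgroup Γ) (γ : Γ) (q : Γ ⧸ Δ) : Δ :=
  ⟨(q.out)⁻¹ * γ * (γ⁻¹ • q).out, by
    have h : ((q.out : Γ) : Γ ⧸ Δ) = ((γ * (γ⁻¹ • q).out : Γ) : Γ ⧸ Δ) := by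
      have h1 : ((γ * (γ⁻¹ • q).out : Γ) : Γ ⧸ Δ) = γ • (((γ⁻¹ • q).out : Γ) : Γ ⧸ Δ) := rfl
      rw [h1]
      simp
    have := QuotientGroup.eq.1 h
    simpa [mul_assoc] using this⟩

/-- The two ways of acting on W agree: θ(δ) acts as δ. -/
def Compat (W : Type) [AddCommGroup W] [DistribMulAction Γ W] (Δ : Subgroup Γ) (θ : Δ →* Γ) :
    Prop := ∀ (δ : Δ) (w : W), θ δ • w = (δ : Γ) • w

/-- The Hecke operator on functions: `γ ↦ ∑_q s_q f(θ(s_q⁻¹ γ s_{γ⁻¹q}))`. -/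
noncomputable def heckeFun (Δ : Subgroup Γ) (θ : Δ →* Γ) (f : Γ → W) (γ : Γ) : W :=
  ∑ᶠ q : Γ ⧸ Δ, q.out • f (θ (tw Δ γ q))

theorem tw_mul (Δ : Subgroup Γ) (a b : Γ) (q : Γ ⧸ Δ) :
    tw Δ (a * b) q = tw Δ a q * tw Δ b (a⁻¹ • q) := by
  apply Subtype.ext
  show (q.out)⁻¹ * (a * b) * ((a * b)⁻¹ • q).out
      = ((q.out)⁻¹ * a * (a⁻¹ • q).out) * (((a⁻¹ • q).out)⁻¹ * b * (b⁻¹ • a⁻¹ • q).out)
  rw [mul_inv_rev, mul_smul]
  group

theorem out_mul_tw (Δ : Subgroup Γ) (a : Γ) (q : Γ ⧸ Δ) :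
    q.out * (tw Δ a q : Γ) = a * (a⁻¹ • q).out := by
  show q.out * ((q.out)⁻¹ * a * (a⁻¹ • q).out) = _
  group

theorem heckeFun_mem (Δ : Subgroup Γ) [Finite (Γ ⧸ Δ)] (θ : Δ →* Γ) (h : Compat W Δ θ)
    (f : Γ → W) (hf : f ∈ Z1 Γ W) : heckeFun Δ θ f ∈ Z1 Γ W := by
  haveI := Fintype.ofFinite (Γ ⧸ Δ)
  intro a b
  have key : ∀ q : Γ ⧸ Δ, q.out • f (θ (tw Δ (a * b) q))
      = q.out • f (θ (tw Δ a q)) + a • ((a⁻¹ • q).out • f (θ (tw Δ b (a⁻¹ • q)))) := by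
    intro q
    rw [tw_mul, map_mul, hf, smul_add]
    congr 1
    rw [h, ← mul_smul, out_mul_tw, mul_smul]
  show heckeFun Δ θ f (a * b) = heckeFun Δ θ f a + a • heckeFun Δ θ f b
  unfold heckeFun
  simp only [finsum_eq_sum_of_fintype]
  rw [Finset.sum_congr rfl (fun q _ => key q), Finset.sum_add_distrib, ← Finset.smul_sum]
  congr 2
  exact (Equiv.sum_comp (MulAction.toPerm (a⁻¹ : Γ))
    (fun q : Γ ⧸ Δ => q.out • f (θ (tw Δ b q))))

theorem heckeFun_cob (Δ : Subgroup Γ) [Finite (Γ ⧸ Δ)] (θ : Δ →* Γ) (h : Compat W Δ θ)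
    (f : Γ → W) (w : W) (hf : ∀ a, f a = a • w - w) :
    ∃ w' : W, ∀ a, heckeFun Δ θ f a = a • w' - w' := by
  haveI := Fintype.ofFinite (Γ ⧸ Δ)
  refine ⟨∑ q : Γ ⧸ Δ, q.out • w, fun a => ?_⟩
  have key : ∀ q : Γ ⧸ Δ, q.out • f (θ (tw Δ a q)) = a • ((a⁻¹ • q).out • w) - q.out • w := by
    intro q
    rw [hf, h, smul_sub, ← mul_smul, out_mul_tw, mul_smul]
  unfold heckeFun
  simp only [finsum_eq_sum_of_fintype]
  rw [Finset.sum_congr rfl (fun q _ => key q), Finset.sum_sub_distrib, ← Finset.smul_sum]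
  congr 2
  exact (Equiv.sum_comp (MulAction.toPerm (a⁻¹ : Γ)) (fun q : Γ ⧸ Δ => q.out • w))

theorem heckeFun_add (Δ : Subgroup Γ) [Finite (Γ ⧸ Δ)] (θ : Δ →* Γ) (f g : Γ → W) :
    heckeFun Δ θ (f + g) = heckeFun Δ θ f + heckeFun Δ θ g := by
  haveI := Fintype.ofFinite (Γ ⧸ Δ)
  funext a
  unfold heckeFun
  simp only [finsum_eq_sum_of_fintype, Pi.add_apply, smul_add]
  rw [Finset.sum_add_distrib]

theorem heckeFun_zero (Δ : Subgroup Γ) (θ : Δ →* Γ) :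
    heckeFun Δ θ (0 : Γ → W) = 0 := by
  funext a
  unfold heckeFun
  simp

/-- The Hecke operator on cocycles. -/
noncomputable def heckeZ (Δ : Subgroup Γ) [Finite (Γ ⧸ Δ)] (θ : Δ →* Γ) (h : Compat W Δ θ) :
    Z1 Γ W →+ Z1 Γ W where
  toFun f := ⟨heckeFun Δ θ f.1, heckeFun_mem Δ θ h f.1 f.2⟩
  map_zero' := Subtype.ext (heckeFun_zero Δ θ)
  map_add' f g := Subtype.ext (heckeFun_add Δ θ f.1 g.1)

/-- The Hecke operator on `H¹`. -/
noncomputable def heckeAux (Δ : Subgroup Γ) [Finite (Γ ⧸ Δ)] (θ : Δ →* Γ) (h : Compat W Δ θ) :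
    H1 Γ W →+ H1 Γ W :=
  QuotientAddGroup.map (B1 Γ W) (B1 Γ W) (heckeZ Δ θ h) (by
    rintro f ⟨w, hw⟩
    exact heckeFun_cob Δ θ h f.1 w hw)

/-- The Hecke operator of `(Δ, θ)` on `H¹(Γ, W)`; by convention 0 if Δ has infinite index or θ is
not compatible with the action on W. -/
noncomputable def hecke1 (Δ : Subgroup Γ) (θ : Δ →* Γ) : H1 Γ W →+ H1 Γ W :=
  if h : Finite (Γ ⧸ Δ) ∧ Compat W Δ θ then
    (haveI := h.1; heckeAux Δ θ h.2) else 0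

theorem hecke1_mk (Δ : Subgroup Γ) [hfin : Finite (Γ ⧸ Δ)] (θ : Δ →* Γ) (h : Compat W Δ θ)
    (f : Z1 Γ W) : hecke1 Δ θ (H1.mk Γ W f) =
      H1.mk Γ W ⟨heckeFun Δ θ f.1, heckeFun_mem Δ θ h f.1 f.2⟩ := by
  unfold hecke1
  rw [dif_pos ⟨hfin, h⟩]
  rfl

/-- The Hecke operator on invariants, `w ↦ ∑_q s_q w`. -/
noncomputable def hecke0 (Δ : Subgroup Γ) (w : H0 Γ W) : H0 Γ W :=
  ⟨∑ᶠ q : Γ ⧸ Δ, q.out • (w : W), by
    intro a
    have : ∀ q : Γ ⧸ Δ, q.out • (w : W) = w := fun q => w.2 _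
    simp only [this]
    by_cases hfin : Finite (Γ ⧸ Δ)
    · haveI := Fintype.ofFinite (Γ ⧸ Δ)
      rw [finsum_eq_sum_of_fintype, Finset.sum_const, smul_comm, w.2 a]
    · by_cases hw : (w : W) = 0
      · simp [hw]
      · rw [finsum_of_infinite_support]
        · simp
        · rw [Function.support_const hw]
          rw [not_finite_iff_infinite] at hfin
          exact Set.infinite_univ⟩

theorem hecke0_eq (Δ : Subgroup Γ) [Finite (Γ ⧸ Δ)] (w : H0 Γ W) :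
    hecke0 Δ w = (Nat.card (Γ ⧸ Δ)) • w := by
  haveI := Fintype.ofFinite (Γ ⧸ Δ)
  apply Subtype.ext
  show ∑ᶠ q : Γ ⧸ Δ, q.out • (w : W) = (((Nat.card (Γ ⧸ Δ)) • w : H0 Γ W) : W)
  have : ∀ q : Γ ⧸ Δ, q.out • (w : W) = w := fun q => w.2 _
  simp only [this]
  rw [finsum_eq_sum_of_fintype, Finset.sum_const, Finset.card_univ, Nat.card_eq_fintype_card]
  rfl

/-- Main computation: if `f(θδ) = f(δ)` for all δ in Δ then the Hecke operator multiplies the class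
of f by its degree. -/
theorem hecke1_eq (Δ : Subgroup Γ) [Finite (Γ ⧸ Δ)] (θ : Δ →* Γ) (h : Compat W Δ θ)
    (f : Z1 Γ W) (hf : ∀ δ : Δ, f.1 (θ δ) = f.1 δ) :
    hecke1 Δ θ (H1.mk Γ W f) = (Nat.card (Γ ⧸ Δ)) • H1.mk Γ W f := by
  haveI := Fintype.ofFinite (Γ ⧸ Δ)
  rw [hecke1_mk Δ θ h, ← map_nsmul]
  refine (QuotientAddGroup.eq.2 ?_).symm
  have hcoc := f.2
  have h1 : f.1 1 = 0 := by
    have := hcoc 1 1
    rw [mul_one, one_smul] at this
    simpa using this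
  have hinv : ∀ s : Γ, s • f.1 s⁻¹ = - f.1 s := by
    intro s
    have := hcoc s s⁻¹
    rw [mul_inv_cancel, h1] at this
    exact (neg_eq_of_add_eq_zero_right this.symm).symm
  refine ⟨∑ q : Γ ⧸ Δ, f.1 q.out, fun a => ?_⟩
  have key : ∀ q : Γ ⧸ Δ, q.out • f.1 (θ (tw Δ a q))
      = f.1 a + (a • f.1 (a⁻¹ • q).out - f.1 q.out) := by
    intro q
    rw [hf]
    show q.out • f.1 ((q.out)⁻¹ * a * (a⁻¹ • q).out) = _
    rw [hcoc, hcoc, smul_add, smul_add, hinv, ← mul_smul, ← mul_smul]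
    have e1 : q.out * (q.out)⁻¹ = 1 := mul_inv_cancel _
    have e2 : q.out * ((q.out)⁻¹ * a) = a := by group
    rw [e1, e2, one_smul]
    abel
  show -(((Nat.card (Γ ⧸ Δ)) • f : Z1 Γ W) : Γ → W) a + heckeFun Δ θ f.1 a = _
  have e3 : (((Nat.card (Γ ⧸ Δ)) • f : Z1 Γ W) : Γ → W) a = (Nat.card (Γ ⧸ Δ)) • f.1 a := rfl
  rw [e3]
  unfold heckeFun
  simp only [finsum_eq_sum_of_fintype]
  rw [Finset.sum_congr rfl (fun q _ => key q), Finset.sum_add_distrib, Finset.sum_const,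
    Finset.card_univ, Nat.card_eq_fintype_card, Finset.sum_sub_distrib, ← Finset.smul_sum]
  have e4 : ∑ q : Γ ⧸ Δ, f.1 (a⁻¹ • q).out = ∑ q : Γ ⧸ Δ, f.1 q.out :=
    Equiv.sum_comp (MulAction.toPerm (a⁻¹ : Γ)) (fun q : Γ ⧸ Δ => f.1 q.out)
  rw [e4]
  abel

end Abs

end W529.CG
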