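import Mathlib
import Pool.Agent.W529.CG.Base

set_option autoImplicit false

/-!
# Project CG: definitions and statements of the parts
-/

namespace W529.CG

open Matrix NumberField
open scoped BigOperators Polynomial LinearAlgebra.Projectivization

/-- The element `diag(1,…,1,u,…,u)` (the last `i` diagonal entries are `u`) of `GL_n(F)`. -/
def gi {F : Type} [Field F] {n : ℕ} (u : Fˣ) (i : ℕ) : GL (Fin n) F where
  val := Matrix.diagonal (fun a : Fin n => if n ≤ (a : ℕ) + i then (u : F) else 1)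
  inv := Matrix.diagonal (fun a : Fin n => if n ≤ (a : ℕ) + i then ((u⁻¹ : Fˣ) : F) else 1)
  val_inv := by
    rw [Matrix.diagonal_mul_diagonal, ← Matrix.diagonal_one]
    congr 1; funext a; split_ifs <;> simp
  inv_val := by
    rw [Matrix.diagonal_mul_diagonal, ← Matrix.diagonal_one]
    congr 1; funext a; split_ifs <;> simp

section Hecke

variable {G : Type} [Group G]

/-- `{γ ∈ Γ : g γ g⁻¹ ∈ Γ}` as a subgroup of Γ. -/
def HD (Γ : Subgroup G) (g : G) : Subgroup Γ :=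
  (Γ.comap (MulAut.conj g).toMonoidHom).subgroupOf Γ

/-- The homomorphism `γ ↦ g γ g⁻¹` from `HD Γ g` to Γ. -/
def Ht (Γ : Subgroup G) (g : G) : HD Γ g →* Γ :=
  (((MulAut.conj g).toMonoidHom).comp (Γ.subtype.comp (HD Γ g).subtype)).codRestrict Γ
    (fun x => x.2)

end Hecke

section Arith

variable (F : Type) [Field F] [NumberField F] (n : ℕ)

/-- `GL_n(O_F)` as a subgroup of `GL_n(F)`. -/
noncomputable def GLO : Subgroup (GL (Fin n) F) :=
  (GeneralLinearGroup.map (n := Fin n) (algebraMap (𝓞 F) F)).range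

/-- The principal congruence subgroup of level `m` of `GL_n(O_F)`, as a subgroup of `GL_n(F)`. -/
noncomputable def PC (m : Ideal (𝓞 F)) : Subgroup (GL (Fin n) F) :=
  ((GeneralLinearGroup.map (n := Fin n) (Ideal.Quotient.mk m)).ker).map
    (GeneralLinearGroup.map (n := Fin n) (algebraMap (𝓞 F) F))

variable {F n}

/-- Γ is a subgroup of `GL_n(O_F)` that contains all elements of determinant 1 of the principal
congruence subgroup of level `a`. -/
def IsCong (a : Ideal (𝓞 F)) (Γ : Subgroup (GL (Fin n) F)) : Prop :=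
  Γ ≤ GLO F n ∧ ∀ γ ∈ PC F n a, Matrix.det (γ : Matrix (Fin n) (Fin n) F) = 1 → γ ∈ Γ

/-- Totally positive elements. -/
def TotPos (x : 𝓞 F) : Prop := ∀ φ : F →+* ℝ, 0 < φ (x : F)

/-- The number of elements of the residue field of `π`. -/
noncomputable def qn (π : 𝓞 F) : ℕ := Ideal.absNorm (Ideal.span {π})

variable (F n)

/-- The congruence subgroup property for subgroups of p-power index: every normal subgroup of
p-power index of a congruence subgroup Γ contains all elements of Γ that are 1 modulo some nonzero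
ideal. -/
def CongrProp (p : ℕ) : Prop :=
  ∀ a : Ideal (𝓞 F), a ≠ ⊥ → ∀ Γ : Subgroup (GL (Fin n) F), IsCong a Γ →
    ∀ N : Subgroup Γ, N.Normal → (∃ k : ℕ, N.index = p ^ k) →
      ∃ m : Ideal (𝓞 F), m ≠ ⊥ ∧ ∀ γ : Γ, (γ : GL (Fin n) F) ∈ PC F n m → γ ∈ N

variable {F}

/-- σ is a Frobenius element at some prime of `L` above the prime element `π` of `O_F`. -/
def IsFrobAt {L : Type} [Field L] [NumberField L] [Algebra F L] (π : 𝓞 F) (σ : L ≃ₐ[F] L) : Prop :=
  ∃ P : Ideal (𝓞 L), P.IsPrime ∧ algebraMap (𝓞 F) (𝓞 L) π ∈ P ∧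
    ∀ x : 𝓞 L, ∃ y ∈ P, (y : L) = σ (x : L) - (x : L) ^ (qn π)

variable (F)

/-- Consequence of the Chebotarev density theorem and Artin reciprocity: every σ in the commutator
subgroup of `Gal(L/F)` is a Frobenius element at a principal prime with a totally positive generator
that is 1 modulo a given nonzero ideal. -/
def RayCheb : Prop :=
  ∀ (L : Type) [Field L] [NumberField L] [Algebra F L] [IsGalois F L],
    ∀ σ ∈ commutator (L ≃ₐ[F] L), ∀ m : Ideal (𝓞 F), m ≠ ⊥ →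
      ∃ π : 𝓞 F, Prime π ∧ π - 1 ∈ m ∧ TotPos π ∧ IsFrobAt π σ

end Arith

/-! ## The parts -/

/-- CONJ: if g = diag(1,..,1,π,..,π), π = 1 mod m, and γ, g γ g⁻¹ are in GL_n(O_F), then
g γ g⁻¹ γ⁻¹ is in the principal congruence subgroup of level m. -/
def S_CONJ : Prop := ∀ (F : Type) [Field F] [NumberField F] (n : ℕ) (m : Ideal (𝓞 F)) (π : 𝓞 F)
  (u : Fˣ) (_ : (u : F) = π) (_ : π - 1 ∈ m) (i : ℕ) (γ : GL (Fin n) F) (_ : γ ∈ GLO F n)
  (_ : gi u i * γ * (gi u i)⁻¹ ∈ GLO F n),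
  gi u i * γ * (gi u i)⁻¹ * γ⁻¹ ∈ PC F n m

/-- LIFT: every transvection over O_F/(π) lifts to Γ. -/
def S_LIFT : Prop := ∀ (F : Type) [Field F] [NumberField F] (n : ℕ) (a : Ideal (𝓞 F)) (π : 𝓞 F)
  (_ : Prime π) (_ : π - 1 ∈ a) (Γ : Subgroup (GL (Fin n) F)) (_ : IsCong a Γ)
  (r s : Fin n) (_ : r ≠ s) (c : 𝓞 F ⧸ Ideal.span {π}),
  ∃ γ : GL (Fin n) (𝓞 F), GeneralLinearGroup.map (algebraMap (𝓞 F) F) γ ∈ Γ ∧
    ((GeneralLinearGroup.map (Ideal.Quotient.mk (Ideal.span {π})) γ :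
      GL (Fin n) (𝓞 F ⧸ Ideal.span {π})) : Matrix (Fin n) (Fin n) (𝓞 F ⧸ Ideal.span {π}))
      = Matrix.transvection r s c

/-- The span of the last `i` coordinate vectors. -/
def Vi (k : Type) [CommRing k] (n i : ℕ) : Submodule k (Fin n → k) where
  carrier := {v | ∀ a : Fin n, (a : ℕ) + i < n → v a = 0}
  zero_mem' := by intro a _; rfl
  add_mem' := by intro v w hv hw a ha; simp [hv a ha, hw a ha]
  smul_mem' := by intro c v hv a ha; simp [hv a ha]

/-- STAB: for γ in GL_n(O_F) with image in Γ, the conjugate by g = diag(1,..,1,π,..,π) is in Γ iff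
the reduction of γ modulo π maps the span of the last i coordinate vectors to itself. -/
def S_STAB : Prop := ∀ (F : Type) [Field F] [NumberField F] (n : ℕ) (a : Ideal (𝓞 F)) (π : 𝓞 F)
  (u : Fˣ) (_ : (u : F) = π) (_ : Prime π) (_ : π - 1 ∈ a) (Γ : Subgroup (GL (Fin n) F))
  (_ : IsCong a Γ) (i : ℕ) (_ : i ≤ n) (γ : GL (Fin n) (𝓞 F))
  (_ : GeneralLinearGroup.map (algebraMap (𝓞 F) F) γ ∈ Γ),
  gi u i * GeneralLinearGroup.map (algebraMap (𝓞 F) F) γ * (gi u i)⁻¹ ∈ Γ ↔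
    ∀ v ∈ Vi (𝓞 F ⧸ Ideal.span {π}) n i,
      (((GeneralLinearGroup.map (Ideal.Quotient.mk (Ideal.span {π})) γ :
      GL (Fin n) (𝓞 F ⧸ Ideal.span {π})) :
        Matrix (Fin n) (Fin n) (𝓞 F ⧸ Ideal.span {π}))).mulVec v
        ∈ Vi (𝓞 F ⧸ Ideal.span {π}) n i

/-- TRANS: over a field, a subgroup H of GL_n(k) that contains all transvections acts transitively
on the subspaces of a given dimension. -/
def S_TRANS : Prop := ∀ (k : Type) [Field k] (n : ℕ) (H : Subgroup (GL (Fin n) k))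
  (_ : ∀ (r s : Fin n) (_ : r ≠ s) (c : k), ∃ h ∈ H,
    (h : Matrix (Fin n) (Fin n) k) = Matrix.transvection r s c)
  (V V' : Submodule k (Fin n → k)) (_ : Module.finrank k V = Module.finrank k V'),
  ∃ h ∈ H, V.map (Matrix.toLin' (h : Matrix (Fin n) (Fin n) k)) = V'

/-- COUNT: if p divides q - 1 (q the number of elements of the finite field k), the number of
i-dimensional subspaces of k^n is congruent to the binomial coefficient modulo p. -/
def S_COUNT : Prop := ∀ (k : Type) [Field k] [Finite k] (p : ℕ) [Fact p.Prime]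
  (_ : (Nat.card k : ZMod p) = 1) (n i : ℕ) (_ : i ≤ n),
  (Nat.card {V : Submodule k (Fin n → k) // Module.finrank k V = i} : ZMod p) = n.choose i

/-- NORM: if π is totally positive and 1 modulo p then the number of elements of O_F/(π) is 1
modulo p. -/
def S_NORM : Prop := ∀ (F : Type) [Field F] [NumberField F] (p : ℕ) [Fact p.Prime] (π : 𝓞 F)
  (_ : TotPos π) (_ : π - 1 ∈ Ideal.span {((p : ℕ) : 𝓞 F)}), (qn π : ZMod p) = 1

/-- GAL: a representation of dimension n ≥ 2 of a finite group over an algebraically closed field of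
characteristic p, such that all elements of the commutator subgroup are unipotent, is reducible. -/
def S_GAL : Prop := ∀ (G : Type) [Group G] [Finite G] (k : Type) [Field k] [IsAlgClosed k] (p : ℕ)
  [Fact p.Prime] [CharP k p] (n : ℕ) (_ : 2 ≤ n) (ρ : G →* GL (Fin n) k)
  (_ : ∀ σ ∈ commutator G, (ρ σ : Matrix (Fin n) (Fin n) k).charpoly
    = (Polynomial.X - 1 : k[X]) ^ n),
  ∃ V : Submodule k (Fin n → k), V ≠ ⊥ ∧ V ≠ ⊤ ∧
    ∀ (σ : G), ∀ v ∈ V, (ρ σ : Matrix (Fin n) (Fin n) k).mulVec v ∈ V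

/-- DEG: degree of the Hecke operators modulo p (from LIFT, STAB, TRANS, COUNT by orbit-stabiliser).
-/
def S_DEG : Prop := ∀ (F : Type) [Field F] [NumberField F] (n : ℕ) (p : ℕ) [Fact p.Prime]
  (a : Ideal (𝓞 F)) (π : 𝓞 F) (u : Fˣ) (_ : (u : F) = π) (_ : Prime π) (_ : π - 1 ∈ a)
  (_ : (qn π : ZMod p) = 1) (Γ : Subgroup (GL (Fin n) F)) (_ : IsCong a Γ) (i : ℕ) (_ : i ≤ n),
  Finite (Γ ⧸ HD Γ (gi u i)) ∧ (Nat.card (Γ ⧸ HD Γ (gi u i)) : ZMod p) = n.choose i

/-- RES: a cocycle of a congruence subgroup with values in a finite p-group on which the elements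
that are 1 mod b act trivially vanishes on the elements that are 1 modulo some nonzero ideal. -/
def S_RES : Prop := ∀ (F : Type) [Field F] [NumberField F] (n : ℕ) (p : ℕ) [Fact p.Prime]
  (_ : CongrProp F n p) (a b : Ideal (𝓞 F)) (_ : a ≠ ⊥) (_ : b ≠ ⊥)
  (Γ : Subgroup (GL (Fin n) F)) (_ : IsCong a Γ)
  (W : Type) [AddCommGroup W] [Finite W] [DistribMulAction Γ W]
  (_ : ∀ w : W, ∃ k : ℕ, p ^ k • w = 0)
  (_ : ∀ γ : Γ, (γ : GL (Fin n) F) ∈ PC F n b → ∀ w : W, γ • w = w) (f : Z1 Γ W),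
  ∃ m : Ideal (𝓞 F), m ≠ ⊥ ∧ ∀ γ : Γ, (γ : GL (Fin n) F) ∈ PC F n m → f.1 γ = 0

/-- CUSP: for a point x of P^1(F) and π = 1 mod m prime there is γ in SL_2(O_F), γ = 1 mod m, such
that diag(1,π) x = γ x (and the same for diag(π,π)). -/
def S_CUSP : Prop := ∀ (F : Type) [Field F] [NumberField F] (m : Ideal (𝓞 F)) (_ : m ≠ ⊥)
  (π : 𝓞 F) (u : Fˣ) (_ : (u : F) = π) (_ : Prime π) (_ : π - 1 ∈ m) (x : ℙ F (Fin 2 → F))
  (i : ℕ) (_ : i ≤ 2),
  ∃ γ ∈ PC F 2 m, Matrix.det (γ : Matrix (Fin 2) (Fin 2) F) = 1 ∧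
    (gi u i : GL (Fin 2) F) • x = γ • x

section MS

variable {G : Type} [Group G] (Γ : Subgroup G) (P : Type) [MulAction G P] (W : Type)
  [AddCommGroup W] [DistribMulAction Γ W]

/-- The group of W-valued modular symbols for Γ: functions m(x,y) on P × P with
m(x,y) + m(y,z) = m(x,z) and m(γx,γy) = γ m(x,y) for γ in Γ. -/
def MS : AddSubgroup (P → P → W) where
  carrier := {m | (∀ x y z, m x y + m y z = m x z) ∧
    ∀ (γ : Γ) (x y : P), m ((γ : G) • x) ((γ : G) • y) = γ • m x y}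
  zero_mem' := by refine ⟨?_, ?_⟩ <;> intros <;> simp
  add_mem' := by
    rintro m m' ⟨h1, h2⟩ ⟨h1', h2'⟩
    refine ⟨?_, ?_⟩
    · intro x y z
      simp only [Pi.add_apply]
      rw [← h1 x y z, ← h1' x y z]; abel
    · intro γ x y
      simp only [Pi.add_apply]
      rw [h2, h2', smul_add]
  neg_mem' := by
    rintro m ⟨h1, h2⟩
    refine ⟨?_, ?_⟩
    · intro x y z
      simp only [Pi.neg_apply]
      rw [← h1 x y z]; abel
    · intro γ x y
      simp only [Pi.neg_apply]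
      rw [h2, smul_neg]

variable {P W}

/-- The Hecke operator of g on functions on P × P:
`(T m)(x, y) = ∑_q s_q m(g s_q⁻¹ x, g s_q⁻¹ y)`, q in Γ / {γ : gγg⁻¹ ∈ Γ}. -/
noncomputable def heckeMS (g : G) (m : P → P → W) : P → P → W :=
  fun x y => ∑ᶠ q : Γ ⧸ HD Γ g,
    q.out • m (g • ((q.out : Γ) : G)⁻¹ • x) (g • ((q.out : Γ) : G)⁻¹ • y)

end MS

/-- MSYM: the Hecke operator on modular symbols is annihilated by (T - d)^2, d the degree, under
the two conditions. -/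
def S_MSYM : Prop := ∀ (G : Type) [Group G] (Γ : Subgroup G) (P : Type) [MulAction G P]
  (W : Type) [AddCommGroup W] [DistribMulAction Γ W] (g : G) [Finite (Γ ⧸ HD Γ g)]
  (_ : Compat W (HD Γ g) (Ht Γ g)) (m : P → P → W) (_ : m ∈ MS Γ P W) (x₀ : P)
  (_ : ∀ δ : HD Γ g, m x₀ (((Ht Γ g δ : Γ) : G) • x₀) = m x₀ (((δ : Γ) : G) • x₀))
  (_ : ∀ z : P, ∃ ν : Γ, (∀ w : W, ν • w = w) ∧ g • z = (ν : G) • z),
  heckeMS Γ g (heckeMS Γ g m - (Nat.card (Γ ⧸ HD Γ g)) • m)
    = (Nat.card (Γ ⧸ HD Γ g)) • (heckeMS Γ g m - (Nat.card (Γ ⧸ HD Γ g)) • m)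

end W529.CG
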