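import Mathlib
import Pool.Agent.W529.CG.Stm

set_option autoImplicit false

/-!
# Project CG: assembly
-/

namespace W529.CG

open Matrix NumberField
open scoped BigOperators Polynomial LinearAlgebra.Projectivization

section Defs

variable {F : Type} [Field F] [NumberField F] {n : ℕ}

/-- ρ is attached to the system of Hecke eigenvalues `lam ∘ τ`. -/
def Attached (b : Ideal (𝓞 F)) {T : Type} [CommRing T] {κ : Type} [Field κ] (lam : T →+* κ)
    (τ : 𝓞 F → ℕ → T) {L : Type} [Field L] [NumberField L] [Algebra F L]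
    (ρ : (L ≃ₐ[F] L) →* GL (Fin n) κ) : Prop :=
  ∀ π : 𝓞 F, Prime π → π - 1 ∈ b → TotPos π → ∀ σ : L ≃ₐ[F] L, IsFrobAt π σ →
    (ρ σ : Matrix (Fin n) (Fin n) κ).charpoly =
      ∑ i ∈ Finset.range (n + 1), Polynomial.C
        ((-1) ^ i * (qn π : κ) ^ (i * (i - 1) / 2) * lam (τ π i)) * Polynomial.X ^ (n - i)

/-- ρ has no invariant subspaces except 0 and the whole space. -/
def Irred {κ : Type} [Field κ] {S : Type} [Group S] (ρ : S →* GL (Fin n) κ) : Prop :=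
  ∀ V : Submodule κ (Fin n → κ),
    (∀ (σ : S), ∀ v ∈ V, (ρ σ : Matrix (Fin n) (Fin n) κ).mulVec v ∈ V) → V = ⊥ ∨ V = ⊤

/-- The localisation of the module M at the kernel of `lam` is zero. -/
def VanishesAt {T : Type} [CommRing T] {κ : Type} [Field κ] (lam : T →+* κ) (M : Type)
    [AddCommGroup M] [Module T M] : Prop := ∀ c : M, ∃ x : T, lam x ≠ 0 ∧ x • c = 0

variable {ι : Type} (Γ : ι → Subgroup (GL (Fin n) F)) (W : ι → Type)
  [∀ t, AddCommGroup (W t)] [∀ t, DistribMulAction (Γ t) (W t)]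

/-- τ π i acts on the sum of the `H⁰` as the double coset operator of diag(1,..,1,π,..,π). -/
def ActsH0 (b : Ideal (𝓞 F)) {T : Type} [CommRing T] (τ : 𝓞 F → ℕ → T)
    [Module T (∀ t, H0 (Γ t) (W t))] : Prop :=
  ∀ π : 𝓞 F, Prime π → π - 1 ∈ b → TotPos π → ∀ u : Fˣ, (u : F) = π → ∀ i ≤ n,
    ∀ (c : ∀ t, H0 (Γ t) (W t)) (t : ι), (τ π i • c) t = hecke0 (HD (Γ t) (gi u i)) (c t)

/-- τ π i acts on the sum of the `H¹` as the double coset operator of diag(1,..,1,π,..,π). -/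
def ActsH1 (b : Ideal (𝓞 F)) {T : Type} [CommRing T] (τ : 𝓞 F → ℕ → T)
    [Module T (∀ t, H1 (Γ t) (W t))] : Prop :=
  ∀ π : 𝓞 F, Prime π → π - 1 ∈ b → TotPos π → ∀ u : Fˣ, (u : F) = π → ∀ i ≤ n,
    ∀ (c : ∀ t, H1 (Γ t) (W t)) (t : ι), (τ π i • c) t =
      hecke1 (HD (Γ t) (gi u i)) (Ht (Γ t) (gi u i)) (c t)

/-- τ π i acts on the sum of the groups of modular symbols as the double coset operator of
diag(1,..,1,π,..,π). -/
def ActsMS (b : Ideal (𝓞 F)) {T : Type} [CommRing T] (τ : 𝓞 F → ℕ → T)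
    [Module T (∀ t, MS (Γ t) (ℙ F (Fin n → F)) (W t))] : Prop :=
  ∀ π : 𝓞 F, Prime π → π - 1 ∈ b → TotPos π → ∀ u : Fˣ, (u : F) = π → ∀ i ≤ n,
    ∀ (c : ∀ t, MS (Γ t) (ℙ F (Fin n → F)) (W t)) (t : ι),
      ((τ π i • c) t : (ℙ F (Fin n → F)) → (ℙ F (Fin n → F)) → W t) =
        heckeMS (Γ t) (gi u i) (c t : (ℙ F (Fin n → F)) → (ℙ F (Fin n → F)) → W t)

end Defs

theorem sq_kill {T : Type} [CommRing T] {M : Type} [AddCommGroup M] [Module T M] (x : T) (N : ℕ)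
    (c : M) (h : x • c = N • c) : (x - (N : T)) ^ 2 • c = 0 := by
  have h0 : (x - (N : T)) • c = 0 := by
    rw [sub_smul, h, Nat.cast_smul_eq_nsmul, sub_self]
  rw [pow_two, mul_smul, h0, smul_zero]

theorem mul_mem3 {R : Type} [CommRing R] {a b c : Ideal R} {x : R} (h : x ∈ a * b * c) :
    x ∈ a ∧ x ∈ b ∧ x ∈ c :=
  ⟨(Ideal.mul_le_left : a * b ≤ a) ((Ideal.mul_le_left : a * b * c ≤ a * b) h),
    (Ideal.mul_le_right : a * b ≤ b) ((Ideal.mul_le_left : a * b * c ≤ a * b) h),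
    (Ideal.mul_le_right : a * b * c ≤ c) h⟩

theorem PC_mono {F : Type} [Field F] [NumberField F] {n : ℕ} {m b : Ideal (𝓞 F)} (h : m ≤ b) :
    PC F n m ≤ PC F n b := by
  rintro _ ⟨γ, hγ, rfl⟩
  refine ⟨γ, ?_, rfl⟩
  have h1 : GeneralLinearGroup.map (n := Fin n) (Ideal.Quotient.mk m) γ = 1 := hγ
  show GeneralLinearGroup.map (n := Fin n) (Ideal.Quotient.mk b) γ = 1
  have h2 : (Ideal.Quotient.mk b) = (Ideal.Quotient.factor h).comp (Ideal.Quotient.mk m) := by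
    ext x; simp
  apply Units.ext
  have h3 := congrArg (fun g : GL (Fin n) (𝓞 F ⧸ m) => (g : Matrix (Fin n) (Fin n) (𝓞 F ⧸ m))) h1
  ext r s
  have h4 := congrFun (congrFun h3 r) s
  simp only [GeneralLinearGroup.map_apply, Units.val_one] at h4 ⊢
  rw [h2, RingHom.comp_apply, h4]
  by_cases hrs : r = s
  · subst hrs; simp
  · simp [Matrix.one_apply_ne hrs]

section Compat

variable {F : Type} [Field F] [NumberField F] {n : ℕ}

theorem ratio_mem (hCONJ : S_CONJ) {m a : Ideal (𝓞 F)} {π : 𝓞 F} {u : Fˣ} (hu : (u : F) = π)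
    (hm : π - 1 ∈ m) {Γ : Subgroup (GL (Fin n) F)} (hΓ : IsCong a Γ) (i : ℕ)
    (δ : HD Γ (gi u i)) :
    (((Ht Γ (gi u i) δ) * (δ : Γ)⁻¹ : Γ) : GL (Fin n) F) ∈ PC F n m := by
  have h1 : gi u i * ((δ : Γ) : GL (Fin n) F) * (gi u i)⁻¹ ∈ Γ := δ.2
  exact hCONJ F n m π u hu hm i ((δ : Γ) : GL (Fin n) F) (hΓ.1 (δ : Γ).2) (hΓ.1 h1)

theorem compat (hCONJ : S_CONJ) {b a : Ideal (𝓞 F)} {π : 𝓞 F} {u : Fˣ} (hu : (u : F) = π)
    (hb : π - 1 ∈ b) {Γ : Subgroup (GL (Fin n) F)} (hΓ : IsCong a Γ) (i : ℕ)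
    (W : Type) [AddCommGroup W] [DistribMulAction Γ W]
    (hW : ∀ γ : Γ, (γ : GL (Fin n) F) ∈ PC F n b → ∀ w : W, γ • w = w) :
    Compat W (HD Γ (gi u i)) (Ht Γ (gi u i)) := by
  intro δ w
  have h := hW _ (ratio_mem hCONJ hu hb hΓ i δ) ((δ : Γ) • w)
  rw [← mul_smul, inv_mul_cancel_right] at h
  exact h

theorem same_val (hCONJ : S_CONJ) {m b a : Ideal (𝓞 F)} {π : 𝓞 F} {u : Fˣ} (hu : (u : F) = π)
    (hm : π - 1 ∈ m) (hmb : m ≤ b) {Γ : Subgroup (GL (Fin n) F)} (hΓ : IsCong a Γ) (i : ℕ)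
    (W : Type) [AddCommGroup W] [DistribMulAction Γ W]
    (hW : ∀ γ : Γ, (γ : GL (Fin n) F) ∈ PC F n b → ∀ w : W, γ • w = w)
    (f : Γ → W) (hf : f ∈ Z1 Γ W)
    (hf0 : ∀ γ : Γ, (γ : GL (Fin n) F) ∈ PC F n m → f γ = 0) (δ : HD Γ (gi u i)) :
    f (Ht Γ (gi u i) δ) = f (δ : Γ) := by
  have h1 := ratio_mem hCONJ hu hm hΓ i δ
  have h2 := hf ((Ht Γ (gi u i) δ) * (δ : Γ)⁻¹) (δ : Γ)
  rw [inv_mul_cancel_right, hf0 _ h1, hW _ (PC_mono hmb h1), zero_add] at h2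
  exact h2

end Compat

section Engine

variable {F : Type} [Field F] [NumberField F] {n : ℕ}

theorem poly_id (κ : Type) [Field κ] (n : ℕ) :
    ∑ i ∈ Finset.range (n + 1), Polynomial.C ((-1) ^ i * (1 : κ) ^ (i * (i - 1) / 2) *
      (n.choose i : κ)) * Polynomial.X ^ (n - i) = (Polynomial.X - 1 : κ[X]) ^ n := by
  have h0 : (Polynomial.X - 1 : κ[X]) = -1 + Polynomial.X := by ring
  rw [h0, add_pow]
  refine Finset.sum_congr rfl fun i _ => ?_
  simp only [one_pow, mul_one, map_mul, map_pow, map_neg, map_one, map_natCast]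
  ring

/-- The engine: a class killed by the squares of all `τ π i - N`, N congruent to the binomial
coefficient, dies in the localisation at a non-Eisenstein maximal ideal. -/
theorem engine (hGAL : S_GAL) (hNORM : S_NORM) (p : ℕ) [hp : Fact p.Prime] (hn : 2 ≤ n)
    (hcheb : RayCheb F) (b : Ideal (𝓞 F)) (hb : b ≠ ⊥)
    {T : Type} [CommRing T] {κ : Type} [Field κ] [IsAlgClosed κ] (lam : T →+* κ)
    (τ : 𝓞 F → ℕ → T) {L : Type} [Field L] [NumberField L] [Algebra F L] [IsGalois F L]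
    (ρ : (L ≃ₐ[F] L) →* GL (Fin n) κ) (hatt : Attached b lam τ ρ) (hirr : Irred ρ)
    {M : Type} [AddCommGroup M] [Module T M] (c : M) (htor : ∃ k : ℕ, p ^ k • c = 0)
    (hc : ∃ m : Ideal (𝓞 F), m ≠ ⊥ ∧ ∀ π : 𝓞 F, Prime π → π - 1 ∈ m → π - 1 ∈ b → TotPos π →
      (qn π : ZMod p) = 1 → ∀ i ≤ n, ∃ N : ℕ, (N : ZMod p) = n.choose i ∧
        (τ π i - (N : T)) ^ 2 • c = 0) :
    ∃ x : T, lam x ≠ 0 ∧ x • c = 0 := by
  by_cases hch : (p : κ) = 0
  · haveI : CharP κ p := (CharP.charP_iff_prime_eq_zero hp.out).2 hch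
    by_contra hcon
    push Not at hcon
    have hcon' : ∀ x : T, x • c = 0 → lam x = 0 := by
      intro x hx
      by_contra h
      exact hcon x h hx
    obtain ⟨m, hm, hmm⟩ := hc
    have hpb : (Ideal.span {((p : ℕ) : 𝓞 F)} : Ideal (𝓞 F)) ≠ ⊥ := by
      rw [Ne, Ideal.span_singleton_eq_bot]
      exact_mod_cast hp.out.ne_zero
    have hJ : m * b * Ideal.span {((p : ℕ) : 𝓞 F)} ≠ ⊥ :=
      mul_ne_zero (mul_ne_zero hm hb) hpb
    have key : ∀ σ ∈ commutator (L ≃ₐ[F] L),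
        (ρ σ : Matrix (Fin n) (Fin n) κ).charpoly = (Polynomial.X - 1 : κ[X]) ^ n := by
      intro σ hσ
      obtain ⟨π, hπ, hπJ, hpos, hfrob⟩ := hcheb L σ hσ _ hJ
      obtain ⟨h1, h2, h3⟩ := mul_mem3 hπJ
      have hq : (qn π : ZMod p) = 1 := hNORM F p π hpos h3
      have hqκ : (qn π : κ) = 1 := by
        have := congrArg (ZMod.castHom (dvd_refl p) κ) hq
        simpa using this
      rw [hatt π hπ h2 hpos σ hfrob, ← poly_id κ n]
      refine Finset.sum_congr rfl fun i hi => ?_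
      have hi' : i ≤ n := Nat.lt_succ_iff.1 (Finset.mem_range.1 hi)
      obtain ⟨N, hN, hx⟩ := hmm π hπ h1 h2 hpos hq i hi'
      have h4 := hcon' _ hx
      rw [map_pow, map_sub, map_natCast] at h4
      have h5 : lam (τ π i) = (N : κ) := sub_eq_zero.1 (pow_eq_zero_iff (two_ne_zero)|>.1 h4)
      have h6 : (N : κ) = (n.choose i : κ) := by
        have := congrArg (ZMod.castHom (dvd_refl p) κ) hN
        simpa using this
      rw [hqκ, h5, h6]
    haveI : Finite (L ≃ₐ[F] L) := inferInstance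
    obtain ⟨V, hV1, hV2, hV3⟩ := hGAL (L ≃ₐ[F] L) κ p n hn ρ key
    rcases hirr V hV3 with h | h
    · exact hV1 h
    · exact hV2 h
  · obtain ⟨k, hk⟩ := htor
    refine ⟨(p : T) ^ k, ?_, ?_⟩
    · rw [map_pow, map_natCast]
      exact pow_ne_zero _ hch
    · have : ((p : T) ^ k) = ((p ^ k : ℕ) : T) := by push_cast; rfl
      rw [this, Nat.cast_smul_eq_nsmul]
      exact hk

end Engine

/-- Vanishing is closed under sums. -/
theorem vanishes_pi {T : Type} [CommRing T] {κ : Type} [Field κ] (lam : T →+* κ) {ι : Type}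
    [Finite ι] (M : ι → Type) [∀ t, AddCommGroup (M t)] [Module T (∀ t, M t)]
    (h : ∀ [DecidableEq ι] (t : ι) (y : M t), ∃ x : T, lam x ≠ 0 ∧ x • (Pi.single t y : ∀ t, M t) = 0) :
    VanishesAt lam (∀ t, M t) := by
  classical
  haveI := Fintype.ofFinite ι
  intro c
  have h1 : ∀ s : Finset ι, ∃ x : T, lam x ≠ 0 ∧ x • (∑ t ∈ s, (Pi.single t (c t) : ∀ t, M t)) = 0 := by
    intro s
    induction s using Finset.induction_on with
    | empty => exact ⟨1, by simp, by simp⟩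
    | insert t s hts ih =>
      obtain ⟨x, hx, hx'⟩ := ih
      obtain ⟨y, hy, hy'⟩ := h t (c t)
      refine ⟨x * y, by rw [map_mul]; exact mul_ne_zero hx hy, ?_⟩
      rw [Finset.sum_insert hts, smul_add, mul_smul, hy', smul_zero, zero_add, mul_comm, mul_smul,
        hx', smul_zero]
  have := h1 Finset.univ
  rw [Finset.univ_sum_single] at this
  exact this

section Main

variable {F : Type} [Field F] [NumberField F] {n : ℕ}

/-- The data. -/
theorem main (hCONJ : S_CONJ) (hDEG : S_DEG) (hRES : S_RES) (hNORM : S_NORM) (hGAL : S_GAL)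
    (hCUSP : S_CUSP) (hMSYM : S_MSYM)
    (p : ℕ) [hp : Fact p.Prime] (hn : 2 ≤ n) (hcsp : CongrProp F n p)
    (hcheb : RayCheb F) {ι : Type} [Finite ι] (Γ : ι → Subgroup (GL (Fin n) F))
    (b : Ideal (𝓞 F)) (hb : b ≠ ⊥) (hΓ : ∀ t, IsCong b (Γ t))
    (W : ι → Type) [∀ t, AddCommGroup (W t)] [∀ t, Finite (W t)]
    [∀ t, DistribMulAction (Γ t) (W t)] (hWp : ∀ t, ∀ w : W t, ∃ k : ℕ, p ^ k • w = 0)
    (hW : ∀ t, ∀ γ : Γ t, (γ : GL (Fin n) F) ∈ PC F n b → ∀ w : W t, γ • w = w)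
    {T : Type} [CommRing T] {κ : Type} [Field κ] [IsAlgClosed κ] (lam : T →+* κ)
    (τ : 𝓞 F → ℕ → T) {L : Type} [Field L] [NumberField L] [Algebra F L] [IsGalois F L]
    (ρ : (L ≃ₐ[F] L) →* GL (Fin n) κ) (hatt : Attached b lam τ ρ) (hirr : Irred ρ) :
    (∀ [Module T (∀ t, H0 (Γ t) (W t))], ActsH0 Γ W b τ →
      VanishesAt lam (∀ t, H0 (Γ t) (W t))) ∧
    (∀ [Module T (∀ t, H1 (Γ t) (W t))], ActsH1 Γ W b τ →
      VanishesAt lam (∀ t, H1 (Γ t) (W t))) ∧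
    (n = 2 → ∀ [Module T (∀ t, MS (Γ t) (ℙ F (Fin n → F)) (W t))], ActsMS Γ W b τ →
      VanishesAt lam (∀ t, MS (Γ t) (ℙ F (Fin n → F)) (W t))) := by
  -- exponent
  have hexp : ∀ t, ∃ k : ℕ, ∀ w : W t, p ^ k • w = 0 := by
    intro t
    choose k hk using hWp t
    obtain ⟨K, hK⟩ := (Set.finite_range k).bddAbove
    refine ⟨K, fun w => ?_⟩
    have h1 : k w ≤ K := hK ⟨w, rfl⟩
    obtain ⟨j, rfl⟩ := Nat.exists_eq_add_of_le h1
    rw [pow_add, mul_comm, mul_smul, hk, smul_zero]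
  have hπ0 : ∀ π : 𝓞 F, Prime π → ∃ u : Fˣ, (u : F) = π := by
    intro π hπ
    have : (π : F) ≠ 0 := by
      simpa using hπ.ne_zero
    exact ⟨Units.mk0 _ this, rfl⟩
  refine ⟨?_, ?_, ?_⟩
  · intro _ hact
    refine vanishes_pi lam (fun t => H0 (Γ t) (W t)) ?_
    intro _ t y
    refine engine hGAL hNORM p hn hcheb b hb lam τ ρ hatt hirr _ ?_ ?_
    · obtain ⟨k, hk⟩ := hexp t
      refine ⟨k, ?_⟩
      rw [← Pi.single_smul]
      have : p ^ k • y = 0 := Subtype.ext (hk y.1)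
      rw [this, Pi.single_zero]
    · refine ⟨b, hb, fun π hπ h1 _ hpos hq i hi => ?_⟩
      obtain ⟨u, hu⟩ := hπ0 π hπ
      obtain ⟨hfin, hcard⟩ := hDEG F n p b π u hu hπ h1 hq (Γ t) (hΓ t) i hi
      refine ⟨_, hcard, ?_⟩
      have key : τ π i • (Pi.single t y : ∀ t, H0 (Γ t) (W t))
          = (Nat.card (Γ t ⧸ HD (Γ t) (gi u i))) • (Pi.single t y : ∀ t, H0 (Γ t) (W t)) := by
        funext s
        rw [hact π hπ h1 hpos u hu i hi]
        by_cases hst : s = t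
        · subst hst
          rw [Pi.smul_apply, Pi.single_eq_same]
          haveI := hfin
          exact hecke0_eq _ _
        · rw [Pi.smul_apply, Pi.single_eq_of_ne hst, smul_zero]
          apply Subtype.ext
          show ∑ᶠ q : Γ s ⧸ HD (Γ s) (gi u i), q.out • (((0 : H0 (Γ s) (W s)) : W s)) = 0
          simp
      exact sq_kill _ _ _ key
  · intro _ hact
    refine vanishes_pi lam (fun t => H1 (Γ t) (W t)) ?_
    intro _ t y
    obtain ⟨f, rfl⟩ : ∃ f, H1.mk (Γ t) (W t) f = y :=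
      QuotientAddGroup.mk'_surjective (B1 (Γ t) (W t)) y
    refine engine hGAL hNORM p hn hcheb b hb lam τ ρ hatt hirr _ ?_ ?_
    · obtain ⟨k, hk⟩ := hexp t
      refine ⟨k, ?_⟩
      have h0 : p ^ k • f = 0 := by
        apply Subtype.ext
        funext γ
        exact hk (f.1 γ)
      have h1 : p ^ k • (H1.mk (Γ t) (W t) f) = 0 := by
        rw [← map_nsmul, h0, map_zero]
      rw [← Pi.single_smul, h1, Pi.single_zero]
    · obtain ⟨m, hm, hm0⟩ := hRES F n p hcsp b b hb hb (Γ t) (hΓ t) (W t) (hWp t) (hW t) f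
      have hmb : m * b ≠ ⊥ := mul_ne_zero hm hb
      refine ⟨m * b, hmb, fun π hπ h1 h2 hpos hq i hi => ?_⟩
      obtain ⟨u, hu⟩ := hπ0 π hπ
      obtain ⟨hfin, hcard⟩ := hDEG F n p b π u hu hπ h2 hq (Γ t) (hΓ t) i hi
      refine ⟨_, hcard, ?_⟩
      haveI := hfin
      have hcomp := compat hCONJ hu h2 (hΓ t) i (W t) (hW t)
      have hsame : ∀ δ : HD (Γ t) (gi u i), f.1 (Ht (Γ t) (gi u i) δ) = f.1 δ := by
        intro δ
        exact same_val hCONJ hu h1 (Ideal.mul_le_right : m * b ≤ b) (hΓ t) i (W t) (hW t) f.1 f.2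
          (fun γ hγ => hm0 γ (PC_mono (Ideal.mul_le_left : m * b ≤ m) hγ)) δ
      have hone := hecke1_eq (HD (Γ t) (gi u i)) (Ht (Γ t) (gi u i)) hcomp f hsame
      have key : τ π i • (Pi.single t (H1.mk (Γ t) (W t) f) : ∀ t, H1 (Γ t) (W t))
          = (Nat.card (Γ t ⧸ HD (Γ t) (gi u i))) •
            (Pi.single t (H1.mk (Γ t) (W t) f) : ∀ t, H1 (Γ t) (W t)) := by
        funext s
        rw [hact π hπ h2 hpos u hu i hi]
        by_cases hst : s = t
        · subst hst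
          rw [Pi.smul_apply, Pi.single_eq_same]
          exact hone
        · rw [Pi.smul_apply, Pi.single_eq_of_ne hst, smul_zero, map_zero]
      exact sq_kill _ _ _ key
  · intro hn2 _ hact
    subst hn2
    refine vanishes_pi lam (fun t => MS (Γ t) (ℙ F (Fin 2 → F)) (W t)) ?_
    intro _ t y
    refine engine hGAL hNORM p hn hcheb b hb lam τ ρ hatt hirr _ ?_ ?_
    · obtain ⟨k, hk⟩ := hexp t
      refine ⟨k, ?_⟩
      rw [← Pi.single_smul]
      have : p ^ k • y = 0 := by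
        apply Subtype.ext
        funext x z
        exact hk (y.1 x z)
      rw [this, Pi.single_zero]
    · -- base point
      obtain ⟨x₀⟩ : Nonempty (ℙ F (Fin 2 → F)) := inferInstance
      -- the cocycle
      have hcoc : (fun γ : Γ t => y.1 x₀ ((γ : GL (Fin 2) F) • x₀)) ∈ Z1 (Γ t) (W t) := by
        intro γ δ
        show y.1 x₀ (((γ * δ : Γ t) : GL (Fin 2) F) • x₀) = y.1 x₀ ((γ : GL (Fin 2) F) • x₀)
          + γ • y.1 x₀ ((δ : GL (Fin 2) F) • x₀)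
        rw [← y.2.2 γ, y.2.1]
        rw [Subgroup.coe_mul, mul_smul]
      obtain ⟨m, hm, hm0⟩ := hRES F 2 p hcsp b b hb hb (Γ t) (hΓ t) (W t) (hWp t) (hW t)
        ⟨_, hcoc⟩
      have hmb : m * b ≠ ⊥ := mul_ne_zero hm hb
      refine ⟨m * b, hmb, fun π hπ h1 h2 hpos hq i hi => ?_⟩
      obtain ⟨u, hu⟩ := hπ0 π hπ
      obtain ⟨hfin, hcard⟩ := hDEG F 2 p b π u hu hπ h2 hq (Γ t) (hΓ t) i hi
      refine ⟨_, hcard, ?_⟩
      haveI := hfin
      have hcomp := compat hCONJ hu h2 (hΓ t) i (W t) (hW t)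
      have hsame : ∀ δ : HD (Γ t) (gi u i),
          y.1 x₀ (((Ht (Γ t) (gi u i) δ : Γ t) : GL (Fin 2) F) • x₀)
            = y.1 x₀ (((δ : Γ t) : GL (Fin 2) F) • x₀) := by
        intro δ
        exact same_val hCONJ hu h1 (Ideal.mul_le_right : m * b ≤ b) (hΓ t) i (W t) (hW t)
          (fun γ : Γ t => y.1 x₀ ((γ : GL (Fin 2) F) • x₀)) hcoc
          (fun γ hγ => hm0 γ (PC_mono (Ideal.mul_le_left : m * b ≤ m) hγ)) δ
      have hcusp : ∀ z : ℙ F (Fin 2 → F), ∃ ν : Γ t, (∀ w : W t, ν • w = w) ∧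
          (gi u i : GL (Fin 2) F) • z = (ν : GL (Fin 2) F) • z := by
        intro z
        obtain ⟨γ, hγ, hdet, hz⟩ := hCUSP F b hb π u hu hπ h2 z i hi
        refine ⟨⟨γ, (hΓ t).2 γ hγ hdet⟩, fun w => hW t _ hγ w, hz⟩
      have hsq := hMSYM (GL (Fin 2) F) (Γ t) (ℙ F (Fin 2 → F)) (W t) (gi u i) hcomp y.1 y.2 x₀
        hsame hcusp
      set d := Nat.card (Γ t ⧸ HD (Γ t) (gi u i)) with hd
      have hz : ∀ s, s ≠ t → ∀ c : (∀ t, MS (Γ t) (ℙ F (Fin 2 → F)) (W t)), c s = 0 →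
          (τ π i • c) s = 0 := by
        intro s _ c hc
        apply Subtype.ext
        rw [hact π hπ h2 hpos u hu i hi, hc]
        funext x z
        show ∑ᶠ q : Γ s ⧸ HD (Γ s) (gi u i), q.out • (0 : W s) = 0
        simp
      have hsmul : ∀ (c : ∀ t, MS (Γ t) (ℙ F (Fin 2 → F)) (W t)) (s : ι),
          (((τ π i - (d : T)) • c) s : (ℙ F (Fin 2 → F)) → (ℙ F (Fin 2 → F)) → W s)
            = heckeMS (Γ s) (gi u i) (c s).1 - d • (c s).1 := by
        intro c s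
        rw [sub_smul, Nat.cast_smul_eq_nsmul]
        show (((τ π i • c) s : MS (Γ s) (ℙ F (Fin 2 → F)) (W s)).1 - (d • (c s)).1) = _
        rw [hact π hπ h2 hpos u hu i hi]
        rfl
      rw [pow_two, mul_smul]
      funext s
      apply Subtype.ext
      rw [hsmul, hsmul]
      by_cases hst : s = t
      · subst hst
        rw [Pi.single_eq_same]
        rw [hsq, sub_self]
        rfl
      · rw [Pi.single_eq_of_ne hst]
        funext x z
        simp [heckeMS]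

end Main

end W529.CG
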