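import Mathlib
import Pool.Agent.W529.CG.Stm

set_option autoImplicit false

/-!
# Project CG: part CONJ
-/

namespace W529.CG

open Matrix NumberField

/-- If g = diag(1,..,1,π,..,π) with π = 1 mod m, and γ and g γ g⁻¹ are in GL_n(O_F), then
g γ g⁻¹ γ⁻¹ is in the principal congruence subgroup of level m. -/
theorem t_CONJ : S_CONJ := by
  intro F _ _ n m π u hu hπ i γ hγ hγ'
  obtain ⟨α, hα⟩ := hγ
  obtain ⟨β, hβ⟩ := hγ'
  have key : ∀ a b, (β : Matrix (Fin n) (Fin n) (𝓞 F)) a b *
      (if n ≤ (b : ℕ) + i then π else 1) =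
      (if n ≤ (a : ℕ) + i then π else 1) * (α : Matrix (Fin n) (Fin n) (𝓞 F)) a b := by
    intro a b
    apply FaithfulSMul.algebraMap_injective (𝓞 F) F
    have e : (GeneralLinearGroup.map (n := Fin n) (algebraMap (𝓞 F) F) β) * gi u i =
        gi u i * GeneralLinearGroup.map (n := Fin n) (algebraMap (𝓞 F) F) α := by
      rw [hα, hβ]; group
    have e1 : ((gi u i : GL (Fin n) F) : Matrix (Fin n) (Fin n) F) =
        Matrix.diagonal (fun a : Fin n => if n ≤ (a : ℕ) + i then (u : F) else 1) := rfl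
    have e2 := congrArg (fun x : GL (Fin n) F => (x : Matrix (Fin n) (Fin n) F) a b) e
    simp only [Units.val_mul, e1, Matrix.mul_diagonal, Matrix.diagonal_mul,
      GeneralLinearGroup.map_apply] at e2
    rw [map_mul, map_mul]
    have e3 : ∀ c : Fin n, algebraMap (𝓞 F) F (if n ≤ (c : ℕ) + i then π else 1) =
        if n ≤ (c : ℕ) + i then (u : F) else 1 := by
      intro c
      split_ifs
      · exact hu.symm
      · exact map_one _
    rw [e3, e3]
    exact e2
  have hq : ∀ c : Fin n, Ideal.Quotient.mk m (if n ≤ (c : ℕ) + i then π else 1) = 1 := by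
    intro c
    split_ifs
    · rw [← map_one (Ideal.Quotient.mk m)]
      exact Ideal.Quotient.eq.2 hπ
    · exact map_one _
  have hαβ : GeneralLinearGroup.map (n := Fin n) (Ideal.Quotient.mk m) β =
      GeneralLinearGroup.map (n := Fin n) (Ideal.Quotient.mk m) α := by
    apply Units.ext
    ext a b
    have e4 := congrArg (Ideal.Quotient.mk m) (key a b)
    rw [map_mul, map_mul, hq, hq, mul_one, one_mul] at e4
    exact e4
  refine ⟨β * α⁻¹, ?_, ?_⟩
  · show GeneralLinearGroup.map (n := Fin n) (Ideal.Quotient.mk m) (β * α⁻¹) = 1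
    rw [map_mul, map_inv, hαβ, mul_inv_cancel]
  · rw [map_mul, map_inv, hα, hβ]

end W529.CG
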