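import Pool.Agent.W529.CG.Stm

set_option autoImplicit false

namespace W529.CG.Count

open Module

variable {k : Type} [Field k] {n : ℕ}

/-- The diagonal action. -/
noncomputable def act (t : Fin n → kˣ) : (Fin n → k) →ₗ[k] (Fin n → k) where
  toFun v := fun a => (t a : k) * v a
  map_add' := by intro v w; funext a; simp [mul_add]
  map_smul' := by intro c v; funext a; simp; ring

theorem act_apply (t : Fin n → kˣ) (v : Fin n → k) (a : Fin n) : act t v a = (t a : k) * v a := rfl

theorem act_one : act (1 : Fin n → kˣ) = LinearMap.id := by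
  apply LinearMap.ext; intro v; funext a; simp [act_apply]

theorem act_mul (t s : Fin n → kˣ) : act (t * s) = (act t).comp (act s) := by
  apply LinearMap.ext; intro v; funext a
  simp [act_apply, mul_assoc]

theorem act_inj (t : Fin n → kˣ) : Function.Injective (act t) := by
  intro v w h
  funext a
  have := congrFun h a
  simpa [act_apply] using this

/-- Subspaces of dimension i. -/
abbrev X (k : Type) [Field k] (n i : ℕ) := {V : Submodule k (Fin n → k) // finrank k V = i}

noncomputable instance (i : ℕ) : MulAction (Fin n → kˣ) (X k n i) where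
  smul t V := ⟨V.1.map (act t),
    (LinearEquiv.finrank_eq (Submodule.equivMapOfInjective (act t) (act_inj t) V.1)).symm.trans V.2⟩
  one_smul V := by
    apply Subtype.ext
    show V.1.map (act 1) = V.1
    rw [act_one, Submodule.map_id]
  mul_smul t s V := by
    apply Subtype.ext
    show V.1.map (act (t * s)) = (V.1.map (act s)).map (act t)
    rw [act_mul, Submodule.map_comp]

theorem smul_val (i : ℕ) (t : Fin n → kˣ) (V : X k n i) : (t • V).1 = V.1.map (act t) := rfl

/-- The p-torsion of the torus. -/
def P (k : Type) [Field k] (n p : ℕ) : Subgroup (Fin n → kˣ) where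
  carrier := {t | t ^ p = 1}
  one_mem' := one_pow p
  mul_mem' := by
    intro a b ha hb
    show (a * b) ^ p = 1
    rw [mul_pow, ha, hb, one_mul]
  inv_mem' := by
    intro a ha
    show (a⁻¹) ^ p = 1
    rw [inv_pow, ha, inv_one]

theorem isP (p : ℕ) : IsPGroup p (P k n p) := by
  intro g
  refine ⟨1, ?_⟩
  apply Subtype.ext
  have := g.2
  rw [pow_one]
  exact this

/-- Coordinate subspaces. -/
noncomputable def E (k : Type) [Field k] {n : ℕ} (s : Finset (Fin n)) : Submodule k (Fin n → k) :=
  Submodule.span k ((Pi.basisFun k (Fin n)) '' (s : Set (Fin n)))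

theorem mem_E (s : Finset (Fin n)) (v : Fin n → k) : v ∈ E k s ↔ ∀ a, a ∉ s → v a = 0 := by
  unfold E
  rw [Basis.mem_span_image]
  constructor
  · intro h a ha
    by_contra hv
    apply ha
    have : a ∈ ((Pi.basisFun k (Fin n)).repr v).support := by
      rw [Finsupp.mem_support_iff]
      simpa using hv
    exact Finset.mem_coe.1 (h (Finset.mem_coe.2 this))
  · intro h a ha
    have h2 := Finsupp.mem_support_iff.1 (Finset.mem_coe.1 ha)
    by_contra h3
    apply h2
    have := h a (fun h4 => h3 (Finset.mem_coe.2 h4))
    simpa using this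

theorem finrank_E (s : Finset (Fin n)) : finrank k (E k s) = s.card := by
  have h : E k s = Submodule.span k (Set.range fun a : s => (Pi.basisFun k (Fin n)) a) := by
    unfold E
    congr 1
    ext v
    simp [Set.mem_image, Set.mem_range]
  rw [h, finrank_span_eq_card]
  · simp
  · exact (Pi.basisFun k (Fin n)).linearIndependent.comp _ Subtype.val_injective

theorem single_mem_E (s : Finset (Fin n)) (a : Fin n) : (Pi.single a (1 : k) : Fin n → k) ∈ E k s ↔ a ∈ s := by
  rw [mem_E]
  constructor
  · intro h
    by_contra h2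
    have := h a h2
    simp at this
  · intro h b hb
    rw [Pi.single_apply, if_neg]
    rintro rfl
    exact hb h

theorem E_fixed (s : Finset (Fin n)) (t : Fin n → kˣ) : (E k s).map (act t) = E k s := by
  have key : ∀ t : Fin n → kˣ, (E k s).map (act t) ≤ E k s := by
    intro t v hv
    obtain ⟨w, hw, rfl⟩ := hv
    rw [mem_E]
    intro a ha
    rw [act_apply, (mem_E s w).1 hw a ha, mul_zero]
  apply le_antisymm (key t)
  intro v hv
  refine ⟨act t⁻¹ v, key t⁻¹ ⟨v, hv, rfl⟩, ?_⟩
  have h := act_mul t t⁻¹
  rw [mul_inv_cancel, act_one] at h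
  exact (LinearMap.congr_fun h v).symm

open Classical in
theorem fixed_eq (p : ℕ) (z : kˣ) (hz : z ^ p = 1) (hz1 : z ≠ 1) (V : Submodule k (Fin n → k))
    (hV : ∀ t : Fin n → kˣ, t ^ p = 1 → V.map (act t) = V) :
    V = E k (Finset.univ.filter fun a => (Pi.single a (1 : k) : Fin n → k) ∈ V) := by
  have hz2 : (z : k) - 1 ≠ 0 := by
    intro h
    apply hz1
    ext
    rw [sub_eq_zero] at h
    exact h
  have key : ∀ v ∈ V, ∀ a, v a ≠ 0 → (Pi.single a (1 : k) : Fin n → k) ∈ V := by
    intro v hv a ha
    have h1 : (Pi.mulSingle a z : Fin n → kˣ) ^ p = 1 := by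
      rw [← Pi.mulSingle_pow, hz, Pi.mulSingle_one]
    have h2 : act (Pi.mulSingle a z) v ∈ V := by
      have h5 : act (Pi.mulSingle a z) v ∈ V.map (act (Pi.mulSingle a z)) := ⟨v, hv, rfl⟩
      rw [hV _ h1] at h5
      exact h5
    have h3 : act (Pi.mulSingle a z) v - v = (((z : k) - 1) * v a) • (Pi.single a (1 : k) : Fin n → k) := by
      funext b
      rw [Pi.sub_apply, act_apply, Pi.smul_apply]
      by_cases hb : b = a
      · subst hb
        simp
        ring
      · rw [Pi.mulSingle_eq_of_ne hb, Pi.single_eq_of_ne hb]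
        simp
    have h4 := V.sub_mem h2 hv
    rw [h3] at h4
    exact (V.smul_mem_iff (mul_ne_zero hz2 ha)).1 h4
  ext v
  rw [mem_E]
  constructor
  · intro hv a ha
    by_contra h
    exact ha (Finset.mem_filter.2 ⟨Finset.mem_univ _, key v hv a h⟩)
  · intro h
    have hs : v = ∑ a, v a • (Pi.single a (1 : k) : Fin n → k) := by
      have := (Pi.basisFun k (Fin n)).sum_repr v
      simpa using this.symm
    rw [hs]
    apply Submodule.sum_mem
    intro a _
    by_cases ha : (Pi.single a (1 : k) : Fin n → k) ∈ V
    · exact V.smul_mem _ ha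
    · rw [h a (fun h2 => ha (Finset.mem_filter.1 h2).2), zero_smul]
      exact V.zero_mem

end W529.CG.Count

namespace W529.CG

open W529.CG.Count Module

theorem t_COUNT : S_COUNT := by
  intro k _ _ p hp hk n i hi
  have : Finite (Submodule k (Fin n → k)) := by
    apply Finite.of_injective (fun V : Submodule k (Fin n → k) => (V : Set (Fin n → k)))
    exact SetLike.coe_injective
  have : Finite (X k n i) := Subtype.finite
  -- an element of order p
  have hcard : Nat.card kˣ = Nat.card k - 1 := by
    have := Fintype.ofFinite k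
    classical
    rw [Nat.card_eq_fintype_card, Nat.card_eq_fintype_card, Fintype.card_units]
  have hpos : 0 < Nat.card k := Nat.card_pos
  have hdvd : p ∣ Nat.card kˣ := by
    rw [hcard, ← ZMod.natCast_eq_zero_iff, Nat.cast_sub hpos, hk]
    simp
  obtain ⟨z, hz⟩ := exists_prime_orderOf_dvd_card' p hdvd
  have hzp : z ^ p = 1 := by rw [← hz]; exact pow_orderOf_eq_one z
  have hz1 : z ≠ 1 := by
    intro h
    rw [h, orderOf_one] at hz
    exact hp.out.one_lt.ne hz
  -- count fixed points
  have hfix := (isP (k := k) (n := n) p).card_modEq_card_fixedPoints (X k n i)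
  have hcnt : Nat.card (MulAction.fixedPoints (P k n p) (X k n i)) = n.choose i := by
    have e : {s : Finset (Fin n) // s.card = i} ≃ MulAction.fixedPoints (P k n p) (X k n i) :=
      Equiv.ofBijective (fun s => ⟨⟨E k s.1, (finrank_E s.1).trans s.2⟩, by
        intro t
        apply Subtype.ext
        exact E_fixed s.1 t.1⟩) (by
        constructor
        · intro s s' h
          apply Subtype.ext
          have h2 : E k s.1 = E k s'.1 := congrArg (fun x => x.1.1) h
          ext a
          rw [← single_mem_E (k := k), ← single_mem_E (k := k), h2]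
        · intro V
          have hV : ∀ t : Fin n → kˣ, t ^ p = 1 → V.1.1.map (act t) = V.1.1 := by
            intro t ht
            have := V.2 ⟨t, ht⟩
            exact congrArg Subtype.val this
          obtain ⟨s, hE⟩ : ∃ s, V.1.1 = E k s := ⟨_, fixed_eq p z hzp hz1 V.1.1 hV⟩
          refine ⟨⟨s, ?_⟩, Subtype.ext (Subtype.ext hE.symm)⟩
          rw [← finrank_E (k := k), ← hE]
          exact V.1.2)
    rw [← Nat.card_congr e, Nat.card_eq_fintype_card, Fintype.card_finset_len, Fintype.card_fin]
  have := (ZMod.natCast_eq_natCast_iff _ _ p).2 hfix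
  rw [this, hcnt]

end W529.CG
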