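import Mathlib
import Pool.Agent.W529.CG.Stm

set_option autoImplicit false

/-!
# Project CG, part CUSP
-/

namespace W529.CG

open Matrix NumberField
open scoped BigOperators Polynomial LinearAlgebra.Projectivization

namespace CUSP

section Ded

variable {O : Type} [CommRing O] [IsDedekindDomain O]

theorem key (m : Ideal O) (a b a' b' : O) (h0 : a ≠ 0 ∨ b ≠ 0)
    (hc : Ideal.span {a, b} = Ideal.span ({a', b'} : Set O))
    (ha : a' - a ∈ m * Ideal.span {a, b}) (hb : b' - b ∈ m * Ideal.span {a, b}) :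
    ∃ p q r s : O, p - 1 ∈ m ∧ q ∈ m ∧ r ∈ m ∧ s - 1 ∈ m ∧ p * s - q * r = 1 ∧
      p * a + q * b = a' ∧ r * a + s * b = b' := by
  set c : Ideal O := Ideal.span {a, b} with hcdef
  have hac : a ∈ c := Ideal.subset_span (by simp)
  have hbc : b ∈ c := Ideal.subset_span (by simp)
  have ha'c : a' ∈ c := by rw [hc]; exact Ideal.subset_span (by simp)
  have hb'c : b' ∈ c := by rw [hc]; exact Ideal.subset_span (by simp)
  obtain ⟨N, hN0, hNc⟩ : ∃ N : O, N ≠ 0 ∧ N ∈ c := by
    rcases h0 with h | h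
    · exact ⟨a, h, hac⟩
    · exact ⟨b, h, hbc⟩
  obtain ⟨c', hcc'⟩ : c ∣ Ideal.span {N} := by
    rw [Ideal.dvd_span_singleton]; exact hNc
  -- bezout
  have bez : ∀ x y : O, c = Ideal.span {x, y} → ∃ al ∈ c', ∃ be ∈ c', x * al + y * be = N := by
    intro x y hxy
    have hN : N ∈ c * c' := by rw [← hcc']; exact Ideal.mem_span_singleton_self N
    rw [hxy, Ideal.span_insert, Ideal.sup_mul] at hN
    obtain ⟨u, hu, v, hv, huv⟩ := Submodule.mem_sup.1 hN
    obtain ⟨al, hal, rfl⟩ := Ideal.mem_span_singleton_mul.1 hu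
    obtain ⟨be, hbe, rfl⟩ := Ideal.mem_span_singleton_mul.1 hv
    exact ⟨al, hal, be, hbe, huv⟩
  obtain ⟨al, hal, be, hbe, h1⟩ := bez a b rfl
  obtain ⟨al0, hal0, be0, hbe0, h2⟩ := bez a' b' hc
  have div : ∀ x ∈ c, ∀ y ∈ c', ∃ z, x * y = N * z := by
    intro x hx y hy
    have := Ideal.mul_mem_mul hx hy
    rw [← hcc'] at this
    obtain ⟨z, hz⟩ := Ideal.mem_span_singleton.1 this
    exact ⟨z, hz⟩
  have divm : ∀ x ∈ m * c, ∀ y ∈ c', ∃ z ∈ m, x * y = N * z := by
    intro x hx y hy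
    have := Ideal.mul_mem_mul hx hy
    rw [mul_assoc, ← hcc', mul_comm m] at this
    obtain ⟨z, hz, hz'⟩ := Ideal.mem_span_singleton_mul.1 this
    exact ⟨z, hz, hz'.symm⟩
  -- T_b, T_a
  have divc : ∀ x ∈ c, ∀ y ∈ c', ∀ z ∈ c', ∃ w ∈ c', (y * z) * x = N * w := by
    intro x hx y hy z hz
    obtain ⟨w, hw⟩ := div x hx y hy
    exact ⟨w * z, Ideal.mul_mem_left _ _ hz, by linear_combination z * hw⟩
  have he : al0 - al ∈ c' := Ideal.sub_mem _ hal0 hal
  have hf : be0 - be ∈ c' := Ideal.sub_mem _ hbe0 hbe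
  obtain ⟨Tb1, hTb1, e1⟩ := divc b' hb'c al0 hal0 _ hf
  obtain ⟨Tb2, hTb2, e2⟩ := divc b' hb'c be0 hbe0 _ he
  obtain ⟨Ta1, hTa1, e3⟩ := divc a' ha'c al0 hal0 _ hf
  obtain ⟨Ta2, hTa2, e4⟩ := divc a' ha'c be0 hbe0 _ he
  -- new cofactors
  obtain ⟨al', hal', be', hbe', k1, k2⟩ : ∃ al' ∈ c', ∃ be' ∈ c',
      N * al' = N * al0 + (al0 * (be0 - be) - be0 * (al0 - al)) * b' ∧
      N * be' = N * be0 - (al0 * (be0 - be) - be0 * (al0 - al)) * a' := by
    refine ⟨al0 + (Tb1 - Tb2), Ideal.add_mem _ hal0 (Ideal.sub_mem _ hTb1 hTb2),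
      be0 - (Ta1 - Ta2), Ideal.sub_mem _ hbe0 (Ideal.sub_mem _ hTa1 hTa2), ?_, ?_⟩
    · linear_combination e2 - e1
    · linear_combination e3 - e4
  -- nu
  obtain ⟨n1, hn1, f1⟩ := divm _ ha al hal
  obtain ⟨n2, hn2, f2⟩ := divm _ hb be hbe
  set ν := -(n1 + n2) with hν
  have hνm : ν ∈ m := by rw [hν]; exact (Ideal.neg_mem_iff _).2 (Ideal.add_mem _ hn1 hn2)
  have hmu : (al0 - al) * a' + (be0 - be) * b' = N * ν := by
    rw [hν]; linear_combination h2 - h1 - f1 - f2
  have g1 : al' - al = al0 * ν := by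
    apply mul_left_cancel₀ hN0
    linear_combination k1 + al0 * hmu - (al0 - al) * h2
  have g2 : be' - be = be0 * ν := by
    apply mul_left_cancel₀ hN0
    linear_combination k2 + be0 * hmu - (be0 - be) * h2
  have h3 : a' * al' + b' * be' = N := by
    apply mul_left_cancel₀ hN0
    linear_combination a' * k1 + b' * k2 + N * h2
  -- entries
  obtain ⟨p1, hp1⟩ := div a' ha'c al hal
  obtain ⟨p2, hp2⟩ := div b hbc be' hbe'
  obtain ⟨q1, hq1⟩ := div a' ha'c be hbe
  obtain ⟨q2, hq2⟩ := div a hac be' hbe'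
  obtain ⟨r1, hr1⟩ := div b' hb'c al hal
  obtain ⟨r2, hr2⟩ := div b hbc al' hal'
  obtain ⟨s1, hs1⟩ := div b' hb'c be hbe
  obtain ⟨s2, hs2⟩ := div a hac al' hal'
  -- products with nu
  obtain ⟨w1, hw1⟩ := div b hbc be0 hbe0
  obtain ⟨w2, hw2⟩ := div a hac be0 hbe0
  obtain ⟨w3, hw3⟩ := div b hbc al0 hal0
  obtain ⟨w4, hw4⟩ := div a hac al0 hal0
  obtain ⟨x1, hx1, y1⟩ := divm _ ha al hal
  obtain ⟨x2, hx2, y2⟩ := divm _ ha be hbe
  obtain ⟨x3, hx3, y3⟩ := divm _ hb al hal
  obtain ⟨x4, hx4, y4⟩ := divm _ hb be hbe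
  refine ⟨p1 + p2, q1 - q2, r1 - r2, s1 + s2, ?_, ?_, ?_, ?_, ?_, ?_, ?_⟩
  · have : p1 + p2 - 1 = x1 + w1 * ν := by
      apply mul_left_cancel₀ hN0
      linear_combination (-1) * hp1 - hp2 + y1 + h1 + b * g2 + ν * hw1
    rw [this]
    exact Ideal.add_mem _ hx1 (Ideal.mul_mem_left _ _ hνm)
  · have : q1 - q2 = x2 - w2 * ν := by
      apply mul_left_cancel₀ hN0
      linear_combination (-1) * hq1 + hq2 + y2 - a * g2 - ν * hw2
    rw [this]
    exact Ideal.sub_mem _ hx2 (Ideal.mul_mem_left _ _ hνm)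
  · have : r1 - r2 = x3 - w3 * ν := by
      apply mul_left_cancel₀ hN0
      linear_combination (-1) * hr1 + hr2 + y3 - b * g1 - ν * hw3
    rw [this]
    exact Ideal.sub_mem _ hx3 (Ideal.mul_mem_left _ _ hνm)
  · have : s1 + s2 - 1 = x4 + w4 * ν := by
      apply mul_left_cancel₀ hN0
      linear_combination (-1) * hs1 - hs2 + y4 + h1 + a * g1 + ν * hw4
    rw [this]
    exact Ideal.add_mem _ hx4 (Ideal.mul_mem_left _ _ hνm)
  · apply mul_left_cancel₀ (mul_ne_zero hN0 hN0)
    have e : (a' * al + b * be') * (b' * be + a * al') - (a' * be - a * be') * (b' * al - b * al')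
        = (a' * al' + b' * be') * (a * al + b * be) := by ring
    have E1 : a' * al + b * be' = N * (p1 + p2) := by rw [hp1, hp2]; ring
    have E2 : b' * be + a * al' = N * (s1 + s2) := by rw [hs1, hs2]; ring
    have E3 : a' * be - a * be' = N * (q1 - q2) := by rw [hq1, hq2]; ring
    have E4 : b' * al - b * al' = N * (r1 - r2) := by rw [hr1, hr2]; ring
    rw [E1, E2, E3, E4, h3, h1] at e
    linear_combination e
  · apply mul_left_cancel₀ hN0
    linear_combination (-a) * hp1 - a * hp2 - b * hq1 + b * hq2 + a' * h1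
  · apply mul_left_cancel₀ hN0
    linear_combination (-a) * hr1 + a * hr2 - b * hs1 - b * hs2 + b' * h1

/-- Division of `(a, π b)` by a suitable `κ`. -/
theorem pair (m : Ideal O) (π : O) (hπ : Prime π) (h1 : π - 1 ∈ m) (a b : O) :
    ∃ a' b' κ : O, κ ≠ 0 ∧ a = κ * a' ∧ π * b = κ * b' ∧
      Ideal.span {a, b} = Ideal.span ({a', b'} : Set O) ∧
      a' - a ∈ m * Ideal.span {a, b} ∧ b' - b ∈ m * Ideal.span {a, b} := by
  by_cases h0 : (Ideal.span {a, b} : Ideal O) = ⊥
  · have ha : a = 0 := by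
      have : a ∈ (Ideal.span {a, b} : Ideal O) := Ideal.subset_span (by simp)
      rw [h0] at this; simpa using this
    have hb : b = 0 := by
      have : b ∈ (Ideal.span {a, b} : Ideal O) := Ideal.subset_span (by simp)
      rw [h0] at this; simpa using this
    refine ⟨a, b, 1, one_ne_zero, by simp, by simp [hb], rfl, by simp, by simp⟩
  set c : Ideal O := Ideal.span {a, b} with hcdef
  have hac : a ∈ c := Ideal.subset_span (by simp)
  have hbc : b ∈ c := Ideal.subset_span (by simp)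
  have hle : (Ideal.span {a, π * b} : Ideal O) ≤ c := by
    rw [Ideal.span_le]
    intro x hx
    simp only [Set.mem_insert_iff, Set.mem_singleton_iff] at hx
    rcases hx with rfl | rfl
    · exact hac
    · exact Ideal.mul_mem_left _ _ hbc
  obtain ⟨d, hd⟩ := Ideal.dvd_iff_le.2 hle
  have hle2 : c * Ideal.span {π} ≤ Ideal.span {a, π * b} := by
    rw [hcdef, Ideal.span_mul_span', Ideal.span_le]
    rintro x ⟨y, hy, z, hz, rfl⟩
    simp only [Set.mem_singleton_iff] at hz
    subst hz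
    simp only [Set.mem_insert_iff, Set.mem_singleton_iff] at hy
    rcases hy with rfl | rfl
    · exact Ideal.mul_mem_right _ _ (Ideal.subset_span (by simp))
    · show y * z ∈ _
      rw [mul_comm]; exact Ideal.subset_span (by simp)
  have hdvd : d ∣ Ideal.span {π} := by
    have := Ideal.dvd_iff_le.2 hle2
    rw [hd] at this
    exact (mul_dvd_mul_iff_left h0).1 this
  have hpr : Prime (Ideal.span {π} : Ideal O) := Ideal.prime_span_singleton_iff.2 hπ
  rcases (hpr.irreducible.dvd_iff).1 hdvd with hu | has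
  · rw [Ideal.isUnit_iff] at hu
    rw [hu, Ideal.mul_top] at hd
    refine ⟨a, π * b, 1, one_ne_zero, by simp, by simp, hd.symm, by simp, ?_⟩
    have : π * b - b = (π - 1) * b := by ring
    rw [this]
    exact Ideal.mul_mem_mul h1 hbc
  · rw [associated_iff_eq] at has
    rw [← has] at hd
    have haw : a ∈ c * Ideal.span {π} := by
      rw [← hd]; exact Ideal.subset_span (by simp)
    obtain ⟨a1, ha1, hea⟩ := Ideal.mem_mul_span_singleton.1 haw
    refine ⟨a1, b, π, hπ.ne_zero, by rw [← hea]; ring, rfl, ?_, ?_, by simp⟩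
    · have hne : (Ideal.span {π} : Ideal O) ≠ 0 := hpr.ne_zero
      apply mul_right_cancel₀ hne
      rw [← hd, Ideal.span_mul_span']
      apply le_antisymm
      · rw [Ideal.span_le]
        intro x hx
        simp only [Set.mem_insert_iff, Set.mem_singleton_iff] at hx
        rcases hx with rfl | rfl
        · exact Ideal.subset_span ⟨a1, by simp, π, by simp, hea⟩
        · exact Ideal.subset_span ⟨b, by simp, π, by simp, by ring⟩
      · rw [Ideal.span_le]
        rintro x ⟨y, hy, z, hz, rfl⟩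
        simp only [Set.mem_singleton_iff] at hz
        subst hz
        simp only [Set.mem_insert_iff, Set.mem_singleton_iff] at hy
        rcases hy with rfl | rfl
        · show y * z ∈ _
          rw [hea]; exact Ideal.subset_span (by simp)
        · show y * z ∈ _
          rw [mul_comm]; exact Ideal.subset_span (by simp)
    · have : a1 - a = -((π - 1) * a1) := by rw [← hea]; ring
      rw [this]
      exact (Ideal.neg_mem_iff _).2 (Ideal.mul_mem_mul h1 ha1)

end Ded

end CUSP

open CUSP in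
theorem t_CUSP : S_CUSP := by
  intro F _ _ m hm π u hu hπ hπ1 x i hi
  have triv : ∀ g : GL (Fin 2) F, (∀ v : Fin 2 → F, ∃ a : Fˣ, a • v = g • v) →
      ∃ γ ∈ PC F 2 m, Matrix.det (γ : Matrix (Fin 2) (Fin 2) F) = 1 ∧ g • x = γ • x := by
    intro g hg
    refine ⟨1, one_mem _, by simp, ?_⟩
    rw [one_smul]
    induction x using Projectivization.ind with
    | h v hv =>
      rw [Projectivization.smul_mk, Projectivization.mk_eq_mk_iff]
      exact hg v
  interval_cases i
  · apply triv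
    intro v
    refine ⟨1, ?_⟩
    show (1 : Fˣ) • v = (Matrix.diagonal _ : Matrix (Fin 2) (Fin 2) F).mulVec v
    rw [one_smul]
    funext a
    rw [Matrix.mulVec_diagonal]
    fin_cases a <;> simp
  · -- the main case
    induction x using Projectivization.ind with
    | h v hv =>
    obtain ⟨d, hd⟩ := IsLocalization.exist_integer_multiples_of_finite (nonZeroDivisors (𝓞 F)) v
    choose w hw using hd
    have hd0 : (algebraMap (𝓞 F) F) (d : 𝓞 F) ≠ 0 := by
      have := nonZeroDivisors.coe_ne_zero d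
      exact (map_ne_zero_iff _ (FaithfulSMul.algebraMap_injective (𝓞 F) F)).2 this
    set a := w 0 with ha
    set b := w 1 with hb
    have hva : (algebraMap (𝓞 F) F) a = algebraMap (𝓞 F) F d * v 0 := by
      rw [ha, hw 0]; simp [Algebra.smul_def]
    have hvb : (algebraMap (𝓞 F) F) b = algebraMap (𝓞 F) F d * v 1 := by
      rw [hb, hw 1]; simp [Algebra.smul_def]
    have hab : a ≠ 0 ∨ b ≠ 0 := by
      by_contra hcon
      push Not at hcon
      apply hv
      funext k
      rw [hcon.1, map_zero] at hva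
      rw [hcon.2, map_zero] at hvb
      have h0 : v 0 = 0 := by
        rcases mul_eq_zero.1 hva.symm with h | h
        · exact absurd h hd0
        · exact h
      have h1 : v 1 = 0 := by
        rcases mul_eq_zero.1 hvb.symm with h | h
        · exact absurd h hd0
        · exact h
      fin_cases k
      · exact h0
      · exact h1
    obtain ⟨a', b', κ, hκ, e1, e2, hspan, hm1, hm2⟩ := pair m π hπ hπ1 a b
    obtain ⟨p, q, r, s, hp, hq, hr, hs, hdet, k1, k2⟩ := key m a b a' b' hab hspan hm1 hm2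
    let γ0 : Matrix.SpecialLinearGroup (Fin 2) (𝓞 F) :=
      ⟨!![p, q; r, s], by rw [Matrix.det_fin_two_of]; exact hdet⟩
    let γ1 : GL (Fin 2) (𝓞 F) := Matrix.SpecialLinearGroup.toGL γ0
    let γ : GL (Fin 2) F := GeneralLinearGroup.map (algebraMap (𝓞 F) F) γ1
    have hγmat : (γ : Matrix (Fin 2) (Fin 2) F) = !![algebraMap (𝓞 F) F p, algebraMap (𝓞 F) F q;
        algebraMap (𝓞 F) F r, algebraMap (𝓞 F) F s] := by
      ext i j
      fin_cases i <;> fin_cases j <;> rfl
    refine ⟨γ, ?_, ?_, ?_⟩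
    · refine ⟨γ1, ?_, rfl⟩
      show γ1 ∈ ((GeneralLinearGroup.map (n := Fin 2) (Ideal.Quotient.mk m)).ker : Set _)
      rw [SetLike.mem_coe, MonoidHom.mem_ker]
      apply Units.ext
      ext i j
      show Ideal.Quotient.mk m (!![p, q; r, s] i j) = (1 : Matrix (Fin 2) (Fin 2) _) i j
      have t1 : Ideal.Quotient.mk m p = 1 := by
        rw [← map_one (Ideal.Quotient.mk m)]; exact Ideal.Quotient.eq.2 hp
      have t2 : Ideal.Quotient.mk m q = 0 := Ideal.Quotient.eq_zero_iff_mem.2 hq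
      have t3 : Ideal.Quotient.mk m r = 0 := Ideal.Quotient.eq_zero_iff_mem.2 hr
      have t4 : Ideal.Quotient.mk m s = 1 := by
        rw [← map_one (Ideal.Quotient.mk m)]; exact Ideal.Quotient.eq.2 hs
      fin_cases i <;> fin_cases j <;> simp [t1, t2, t3, t4]
    · rw [hγmat, Matrix.det_fin_two_of, ← map_mul, ← map_mul, ← map_sub, hdet, map_one]
    · rw [Projectivization.smul_mk, Projectivization.smul_mk, Projectivization.mk_eq_mk_iff]
      have hκ0 : (algebraMap (𝓞 F) F) κ ≠ 0 :=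
        (map_ne_zero_iff _ (FaithfulSMul.algebraMap_injective (𝓞 F) F)).2 hκ
      refine ⟨Units.mk0 _ hκ0, ?_⟩
      have G1 := congrArg (algebraMap (𝓞 F) F) k1
      have G2 := congrArg (algebraMap (𝓞 F) F) k2
      have G3 := congrArg (algebraMap (𝓞 F) F) e1
      have G4 := congrArg (algebraMap (𝓞 F) F) e2
      simp only [map_add, map_mul] at G1 G2 G3 G4
      rw [hva, hvb] at G1 G2
      rw [hva] at G3
      rw [hvb] at G4
      have L0 : ((γ : Matrix (Fin 2) (Fin 2) F).mulVec v) 0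
          = algebraMap (𝓞 F) F p * v 0 + algebraMap (𝓞 F) F q * v 1 := by
        rw [hγmat]; simp [Matrix.mulVec, dotProduct, Fin.sum_univ_two]
      have L1 : ((γ : Matrix (Fin 2) (Fin 2) F).mulVec v) 1
          = algebraMap (𝓞 F) F r * v 0 + algebraMap (𝓞 F) F s * v 1 := by
        rw [hγmat]; simp [Matrix.mulVec, dotProduct, Fin.sum_univ_two]
      have R0 : (((gi u 1 : GL (Fin 2) F) : Matrix (Fin 2) (Fin 2) F).mulVec v) 0 = v 0 := by
        show (Matrix.diagonal _ : Matrix (Fin 2) (Fin 2) F).mulVec v 0 = _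
        rw [Matrix.mulVec_diagonal]; simp
      have R1 : (((gi u 1 : GL (Fin 2) F) : Matrix (Fin 2) (Fin 2) F).mulVec v) 1
          = algebraMap (𝓞 F) F π * v 1 := by
        show (Matrix.diagonal _ : Matrix (Fin 2) (Fin 2) F).mulVec v 1 = _
        rw [Matrix.mulVec_diagonal]; simp [hu]
      funext k
      show (Units.mk0 _ hκ0 : Fˣ) • ((γ : Matrix (Fin 2) (Fin 2) F).mulVec v k)
        = ((gi u 1 : GL (Fin 2) F) : Matrix (Fin 2) (Fin 2) F).mulVec v k
      rw [Units.smul_def, Units.val_mk0, smul_eq_mul]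
      apply mul_left_cancel₀ hd0
      fin_cases k
      · show _ * (_ * ((γ : Matrix (Fin 2) (Fin 2) F).mulVec v) 0)
          = _ * (((gi u 1 : GL (Fin 2) F) : Matrix (Fin 2) (Fin 2) F).mulVec v) 0
        rw [L0, R0]
        linear_combination (algebraMap (𝓞 F) F κ) * G1 - G3
      · show _ * (_ * ((γ : Matrix (Fin 2) (Fin 2) F).mulVec v) 1)
          = _ * (((gi u 1 : GL (Fin 2) F) : Matrix (Fin 2) (Fin 2) F).mulVec v) 1
        rw [L1, R1]
        linear_combination (algebraMap (𝓞 F) F κ) * G2 - G4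
  · apply triv
    intro v
    refine ⟨u, ?_⟩
    show u • v = (Matrix.diagonal _ : Matrix (Fin 2) (Fin 2) F).mulVec v
    funext a
    rw [Matrix.mulVec_diagonal]
    fin_cases a <;> simp [Units.smul_def]

end W529.CG
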