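import Pool.Agent.W529.CG.Stm

set_option autoImplicit false

/-!
# Project CG: the degree of the Hecke operators modulo p (orbit-stabiliser)
-/

namespace W529.CG

open Matrix NumberField

namespace DEG

theorem finrank_Vi (k : Type) [Field k] (n i : ℕ) (hi : i ≤ n) :
    Module.finrank k (Vi k n i) = i := by
  let e : Fin (n - i) → Fin n := fun b => ⟨b, by omega⟩
  have he : Function.Injective e := fun b b' h => Fin.ext (by simpa [e] using h)
  have hker : Vi k n i = LinearMap.ker (LinearMap.funLeft k k e) := by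
    ext v
    rw [LinearMap.mem_ker]
    constructor
    · intro h
      funext b
      exact h (e b) (by simp only [e]; omega)
    · intro h a ha
      exact congrFun h (⟨a, by omega⟩ : Fin (n - i))
  rw [hker]
  have h1 := LinearMap.finrank_range_add_finrank_ker (LinearMap.funLeft k k e)
  rw [LinearMap.range_eq_top.mpr (LinearMap.funLeft_surjective_of_injective k k e he), finrank_top,
    Module.finrank_fintype_fun_eq_card, Module.finrank_fintype_fun_eq_card, Fintype.card_fin,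
    Fintype.card_fin] at h1
  omega

/-- image of a subspace under a matrix -/
def mp {k : Type} [Field k] {n : ℕ} (A : GL (Fin n) k) (V : Submodule k (Fin n → k)) :
    Submodule k (Fin n → k) :=
  V.map (Matrix.toLin' (A : Matrix (Fin n) (Fin n) k))

theorem mp_mul {k : Type} [Field k] {n : ℕ} (A B : GL (Fin n) k)
    (V : Submodule k (Fin n → k)) : mp (A * B) V = mp A (mp B V) := by
  unfold mp
  rw [Units.val_mul, Matrix.toLin'_mul, Submodule.map_comp]

theorem mp_one {k : Type} [Field k] {n : ℕ}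
    (V : Submodule k (Fin n → k)) : mp (1 : GL (Fin n) k) V = V := by
  unfold mp
  rw [Units.val_one, Matrix.toLin'_one, Submodule.map_id]

theorem finrank_mp {k : Type} [Field k] {n : ℕ} (A : GL (Fin n) k)
    (V : Submodule k (Fin n → k)) : Module.finrank k (mp A V) = Module.finrank k V := by
  apply le_antisymm
  · exact Submodule.finrank_map_le _ _
  · have h : mp A⁻¹ (mp A V) = V := by rw [← mp_mul, inv_mul_cancel, mp_one]
    calc Module.finrank k V = Module.finrank k (mp A⁻¹ (mp A V)) := by rw [h]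
      _ ≤ _ := Submodule.finrank_map_le _ _

theorem mp_eq_iff {k : Type} [Field k] {n : ℕ} (A B : GL (Fin n) k)
    (V : Submodule k (Fin n → k)) : mp A V = mp B V ↔
      ∀ v ∈ V, ((A⁻¹ * B : GL (Fin n) k) : Matrix (Fin n) (Fin n) k).mulVec v ∈ V := by
  constructor
  · intro h v hv
    have h1 : mp (A⁻¹ * B) V = V := by
      rw [mp_mul, ← h, ← mp_mul, inv_mul_cancel, mp_one]
    have h2 : ((A⁻¹ * B : GL (Fin n) k) : Matrix (Fin n) (Fin n) k).mulVec v ∈
        mp (A⁻¹ * B) V := ⟨v, hv, by rw [Matrix.toLin'_apply]⟩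
    rwa [h1] at h2
  · intro h
    have h1 : mp (A⁻¹ * B) V ≤ V := by
      rintro _ ⟨v, hv, rfl⟩
      rw [Matrix.toLin'_apply]
      exact h v hv
    have h2 : mp (A⁻¹ * B) V = V := Submodule.eq_of_le_of_finrank_eq h1 (finrank_mp _ _)
    calc mp A V = mp A (mp (A⁻¹ * B) V) := by rw [h2]
      _ = mp B V := by rw [← mp_mul, mul_inv_cancel_left]

theorem orbit_stab {G0 G : Type} [Group G0] [Group G] (ι : G0 →* G)
    (hι : Function.Injective ι) (Γ : Subgroup G) (hΓ : Γ ≤ ι.range) (g : G) {k : Type} [Field k]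
    (n i : ℕ) (hi : i ≤ n) (red : G0 →* GL (Fin n) k)
    (hstab : ∀ γ : G0, ι γ ∈ Γ → (g * ι γ * g⁻¹ ∈ Γ ↔
      ∀ v ∈ Vi k n i, (red γ : Matrix (Fin n) (Fin n) k).mulVec v ∈ Vi k n i))
    (htrans : ∀ V : Submodule k (Fin n → k), Module.finrank k V = i → ∃ γ : G0, ι γ ∈ Γ ∧
      mp (red γ) (Vi k n i) = V) :
    Nonempty ((Γ ⧸ HD Γ g) ≃ {V : Submodule k (Fin n → k) // Module.finrank k V = i}) := by
  have hs : ∀ γ : Γ, ∃ γ₀ : G0, ι γ₀ = (γ : G) := fun γ => hΓ γ.2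
  choose s hs using hs
  let f : Γ → {V : Submodule k (Fin n → k) // Module.finrank k V = i} :=
    fun γ => ⟨mp (red (s γ)) (Vi k n i), by rw [finrank_mp, finrank_Vi k n i hi]⟩
  have hf : ∀ γ γ' : Γ, f γ = f γ' ↔ γ⁻¹ * γ' ∈ HD Γ g := by
    intro γ γ'
    have e1 : f γ = f γ' ↔ mp (red (s γ)) (Vi k n i) = mp (red (s γ')) (Vi k n i) :=
      Subtype.ext_iff
    have e2 : ι ((s γ)⁻¹ * s γ') = ((γ⁻¹ * γ' : Γ) : G) := by
      rw [map_mul, map_inv, hs, hs]
      rfl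
    have e3 : ι ((s γ)⁻¹ * s γ') ∈ Γ := by
      rw [e2]
      exact (γ⁻¹ * γ').2
    have e4 : γ⁻¹ * γ' ∈ HD Γ g ↔ g * ι ((s γ)⁻¹ * s γ') * g⁻¹ ∈ Γ := by
      rw [e2]
      exact Iff.rfl
    rw [e1, e4, mp_eq_iff, hstab _ e3, map_mul, map_inv]
  refine ⟨Equiv.ofBijective (Quotient.lift f ?_) ⟨?_, ?_⟩⟩
  · intro γ γ' h
    exact (hf γ γ').mpr (QuotientGroup.leftRel_apply.mp h)
  · intro x y
    refine Quotient.inductionOn₂ x y ?_
    intro γ γ' h
    exact Quotient.sound (QuotientGroup.leftRel_apply.mpr ((hf γ γ').mp h))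
  · rintro ⟨V, hV⟩
    obtain ⟨γ₀, h1, h2⟩ := htrans V hV
    refine ⟨Quotient.mk _ (⟨ι γ₀, h1⟩ : Γ), ?_⟩
    show f ⟨ι γ₀, h1⟩ = _
    apply Subtype.ext
    show mp (red (s ⟨ι γ₀, h1⟩)) (Vi k n i) = V
    have : s ⟨ι γ₀, h1⟩ = γ₀ := hι (hs _)
    rw [this, h2]

end DEG

open DEG in
theorem t_DEG (h1 : S_LIFT) (h2 : S_STAB) (h3 : S_TRANS) (h4 : S_COUNT) : S_DEG := by
  intro F _ _ n p _ a π u hu hπ hπa hq Γ hΓ i hi
  have hI0 : (Ideal.span {π} : Ideal (𝓞 F)) ≠ ⊥ := by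
    rw [Ne, Ideal.span_singleton_eq_bot]
    exact hπ.ne_zero
  have hIp : (Ideal.span {π} : Ideal (𝓞 F)).IsPrime :=
    (Ideal.span_singleton_prime hπ.ne_zero).mpr hπ
  haveI hIm : (Ideal.span {π} : Ideal (𝓞 F)).IsMaximal := hIp.isMaximal hI0
  haveI hfin : Finite (𝓞 F ⧸ Ideal.span {π}) :=
    Ideal.finiteQuotientOfFreeOfNeBot _ hI0
  letI hfield : Field (𝓞 F ⧸ Ideal.span {π}) := Ideal.Quotient.field _
  have hcard : (Nat.card (𝓞 F ⧸ Ideal.span {π}) : ZMod p) = 1 := by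
    rw [← hq, qn, Ideal.absNorm_apply, Submodule.cardQuot_apply]
  have hinj : Function.Injective
      (GeneralLinearGroup.map (n := Fin n) (algebraMap (𝓞 F) F)) := by
    intro A B hAB
    apply Units.ext
    have h5 := congrArg (fun M : GL (Fin n) F => (M : Matrix (Fin n) (Fin n) F)) hAB
    exact Matrix.ext fun r s =>
      FaithfulSMul.algebraMap_injective (𝓞 F) F (congrFun (congrFun h5 r) s)
  obtain ⟨e⟩ := orbit_stab (G0 := GL (Fin n) (𝓞 F)) (G := GL (Fin n) F)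
    (GeneralLinearGroup.map (algebraMap (𝓞 F) F)) hinj Γ hΓ.1 (gi u i)
    (k := 𝓞 F ⧸ Ideal.span {π}) n i hi
    (GeneralLinearGroup.map (Ideal.Quotient.mk (Ideal.span {π})))
    (fun γ hγ => h2 F n a π u hu hπ hπa Γ hΓ i hi γ hγ)
    (by
      intro V hV
      obtain ⟨h, hh, hhV⟩ := h3 (𝓞 F ⧸ Ideal.span {π}) n
        ((Γ.comap (GeneralLinearGroup.map (algebraMap (𝓞 F) F))).map
          (GeneralLinearGroup.map (Ideal.Quotient.mk (Ideal.span {π}))))
        (by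
          intro r s hrs c
          obtain ⟨γ, hγ, hγ'⟩ := h1 F n a π hπ hπa Γ hΓ r s hrs c
          exact ⟨_, ⟨γ, hγ, rfl⟩, hγ'⟩)
        (Vi (𝓞 F ⧸ Ideal.span {π}) n i) V (by rw [hV, finrank_Vi _ n i hi])
      obtain ⟨γ, hγ, rfl⟩ := hh
      exact ⟨γ, hγ, hhV⟩)
  haveI : Finite (Submodule (𝓞 F ⧸ Ideal.span {π}) (Fin n → 𝓞 F ⧸ Ideal.span {π})) :=
    Finite.of_injective (fun V => (V : Set (Fin n → 𝓞 F ⧸ Ideal.span {π})))
      SetLike.coe_injective
  refine ⟨Finite.of_equiv _ e.symm, ?_⟩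
  rw [Nat.card_congr e]
  exact h4 (𝓞 F ⧸ Ideal.span {π}) p hcard n i hi

end W529.CG
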