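import Mathlib
import Pool.Agent.W529.CG.Stm

set_option autoImplicit false

/-!
# Project CG, part GAL (helper18)
-/

namespace W529.CG

open Matrix
open scoped BigOperators Polynomial

namespace GalAux

/-- An element with charpoly `(X - 1) ^ n` has order a power of `p` in characteristic `p`. -/
theorem pow_eq_one {k : Type} [Field k] {p : ℕ} [Fact p.Prime] [CharP k p] {n : ℕ} (hn : 1 ≤ n)
    (M : Matrix (Fin n) (Fin n) k) (hM : M.charpoly = (Polynomial.X - 1 : k[X]) ^ n) :
    M ^ (p ^ n) = 1 := by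
  haveI : Nonempty (Fin n) := ⟨⟨0, hn⟩⟩
  have h1 : (M - 1) ^ n = 0 := by
    have := Matrix.aeval_self_charpoly M
    rw [hM] at this
    simpa using this
  have hle : n ≤ p ^ n := (Nat.lt_pow_self (Fact.out : p.Prime).one_lt).le
  have h2 : (M - 1) ^ (p ^ n) = 0 := pow_eq_zero_of_le hle h1
  have h3 : (M - 1) ^ (p ^ n) = M ^ (p ^ n) - 1 ^ (p ^ n) :=
    sub_pow_char_pow_of_commute p n (Commute.one_right M)
  rw [h2, one_pow] at h3
  exact (sub_eq_zero.1 h3.symm)

/-- the action of a subgroup of `GL_n(k)` on a stable set of vectors -/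
@[reducible] def act {k : Type} [Field k] {n : ℕ} (P : Subgroup (GL (Fin n) k)) (M : Set (Fin n → k))
    (h : ∀ g ∈ P, ∀ v ∈ M, (g : Matrix (Fin n) (Fin n) k).mulVec v ∈ M) : MulAction P M where
  smul g v := ⟨((g : GL (Fin n) k) : Matrix (Fin n) (Fin n) k).mulVec v.1, h g.1 g.2 v.1 v.2⟩
  one_smul v := by
    apply Subtype.ext
    show (((1 : P) : GL (Fin n) k) : Matrix (Fin n) (Fin n) k).mulVec v.1 = v.1
    simp
  mul_smul a b v := by
    apply Subtype.ext
    show (((a * b : P) : GL (Fin n) k) : Matrix (Fin n) (Fin n) k).mulVec v.1 =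
      ((a : GL (Fin n) k) : Matrix (Fin n) (Fin n) k).mulVec
        (((b : GL (Fin n) k) : Matrix (Fin n) (Fin n) k).mulVec v.1)
    simp [Matrix.mulVec_mulVec]

theorem exists_fixed {k : Type} [Field k] {p : ℕ} [Fact p.Prime] [CharP k p] {n : ℕ} (hn : 1 ≤ n)
    (P : Subgroup (GL (Fin n) k)) [Finite P] (hP : IsPGroup p P) :
    ∃ v : Fin n → k, v ≠ 0 ∧ ∀ g ∈ P, (g : Matrix (Fin n) (Fin n) k).mulVec v = v := by
  letI : Algebra (ZMod p) k := ZMod.algebra k p
  -- the orbit of a vector
  let v0 : Fin n → k := fun _ => 1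
  have hv0 : v0 ≠ 0 := by
    intro h
    have := congrFun h ⟨0, hn⟩
    simp [v0] at this
  let S : Set (Fin n → k) := Set.range (fun g : P =>
    ((g : GL (Fin n) k) : Matrix (Fin n) (Fin n) k).mulVec v0)
  have hS : S.Finite := Set.finite_range _
  let M : Submodule (ZMod p) (Fin n → k) := Submodule.span (ZMod p) S
  haveI : Module.Finite (ZMod p) M := Module.Finite.span_of_finite (ZMod p) hS
  haveI : Finite M := Module.finite_of_finite (ZMod p)
  have hv0M : v0 ∈ M := by
    apply Submodule.subset_span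
    exact ⟨1, by simp⟩
  have hst : ∀ g ∈ P, ∀ v ∈ (M : Set (Fin n → k)),
      (g : Matrix (Fin n) (Fin n) k).mulVec v ∈ (M : Set (Fin n → k)) := by
    intro g hg v hv
    refine Submodule.span_induction (p := fun v _ =>
      (g : Matrix (Fin n) (Fin n) k).mulVec v ∈ M) ?_ ?_ ?_ ?_ hv
    · rintro _ ⟨h, rfl⟩
      apply Submodule.subset_span
      refine ⟨⟨g, hg⟩ * h, ?_⟩
      simp [Matrix.mulVec_mulVec]
    · simp
    · intro x y _ _ hx hy
      rw [Matrix.mulVec_add]
      exact M.add_mem hx hy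
    · intro a x _ hx
      rw [Matrix.mulVec_smul]
      exact M.smul_mem a hx
  letI := act P (M : Set (Fin n → k)) hst
  haveI : Finite (M : Set (Fin n → k)) := ‹Finite M›
  have hcard : p ∣ Nat.card (M : Set (Fin n → k)) := by
    show p ∣ Nat.card M
    have h1 : Nat.card M = Nat.card (ZMod p) ^ Module.finrank (ZMod p) M :=
      Module.natCard_eq_pow_finrank
    rw [h1, Nat.card_zmod]
    haveI : Nontrivial M := ⟨⟨v0, hv0M⟩, 0, fun h => hv0 (congrArg Subtype.val h)⟩
    exact dvd_pow_self p (Module.finrank_pos).ne'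
  have h0 : (⟨0, M.zero_mem⟩ : (M : Set (Fin n → k))) ∈
      MulAction.fixedPoints P (M : Set (Fin n → k)) := by
    intro g
    apply Subtype.ext
    show ((g : GL (Fin n) k) : Matrix (Fin n) (Fin n) k).mulVec 0 = 0
    simp
  obtain ⟨b, hb, hne⟩ := hP.exists_fixed_point_of_prime_dvd_card_of_fixed_point
    (M : Set (Fin n → k)) hcard h0
  refine ⟨b.1, fun h => hne (Subtype.ext h.symm), fun g hg => ?_⟩
  have := congrArg Subtype.val (hb ⟨g, hg⟩)
  exact this

end GalAux

open GalAux in
theorem t_GAL : S_GAL := by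
  intro G _ _ k _ _ p _ _ n hn ρ hD
  -- the image of the commutator subgroup
  let P : Subgroup (GL (Fin n) k) := (commutator G).map ρ
  haveI : Finite P := by
    have : Finite ((commutator G).map ρ : Set (GL (Fin n) k)) := by
      rw [Subgroup.coe_map]
      exact (Set.toFinite _).image _
    exact this
  have hP : IsPGroup p P := by
    rintro ⟨g, d, hd, rfl⟩
    refine ⟨n, ?_⟩
    apply Subtype.ext
    apply Units.ext
    have := pow_eq_one (p := p) (by omega) _ (hD d hd)
    simpa using this
  obtain ⟨v, hv, hfix⟩ := exists_fixed (p := p) (by omega) P hP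
  let V0 : Submodule k (Fin n → k) :=
    { carrier := {v | ∀ d ∈ commutator G, (ρ d : Matrix (Fin n) (Fin n) k).mulVec v = v}
      zero_mem' := by intro d _; simp
      add_mem' := by
        intro x y hx hy d hd
        rw [Matrix.mulVec_add, hx d hd, hy d hd]
      smul_mem' := by
        intro c x hx d hd
        rw [Matrix.mulVec_smul, hx d hd] }
  have hvV : v ∈ V0 := fun d hd => hfix _ ⟨d, hd, rfl⟩
  have hmul : ∀ (a b : G) (w : Fin n → k), (ρ (a * b) : Matrix (Fin n) (Fin n) k).mulVec w =
      (ρ a : Matrix (Fin n) (Fin n) k).mulVec ((ρ b : Matrix (Fin n) (Fin n) k).mulVec w) := by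
    intro a b w
    rw [map_mul, Matrix.mulVec_mulVec]
    rfl
  have hst : ∀ σ : G, ∀ v ∈ V0, (ρ σ : Matrix (Fin n) (Fin n) k).mulVec v ∈ V0 := by
    intro σ v hv d hd
    have hd' : σ⁻¹ * d * σ ∈ commutator G := by
      have := (inferInstance : (commutator G).Normal).conj_mem d hd σ⁻¹
      simpa using this
    rw [← hmul]
    have e : d * σ = σ * (σ⁻¹ * d * σ) := by group
    rw [e, hmul, hv _ hd']
  by_cases hV : V0 = ⊤
  · -- commuting operators
    have htriv : ∀ d ∈ commutator G, ∀ w : Fin n → k,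
        (ρ d : Matrix (Fin n) (Fin n) k).mulVec w = w := by
      intro d hd w
      have : w ∈ V0 := by rw [hV]; trivial
      exact this d hd
    have hcomm : ∀ (a b : G) (w : Fin n → k), (ρ a : Matrix (Fin n) (Fin n) k).mulVec
        ((ρ b : Matrix (Fin n) (Fin n) k).mulVec w) = (ρ b : Matrix (Fin n) (Fin n) k).mulVec
        ((ρ a : Matrix (Fin n) (Fin n) k).mulVec w) := by
      intro a b w
      rw [← hmul, ← hmul]
      have e : a * b = (a * b * a⁻¹ * b⁻¹) * (b * a) := by group
      have hmem : a * b * a⁻¹ * b⁻¹ ∈ commutator G :=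
        Subgroup.commutator_mem_commutator (Subgroup.mem_top a) (Subgroup.mem_top b)
      rw [e, hmul]
      exact htriv _ hmem _
    haveI : Nonempty (Fin n) := ⟨⟨0, by omega⟩⟩
    by_cases hsc : ∀ s : G, ∃ c : k, ∀ w : Fin n → k,
        (ρ s : Matrix (Fin n) (Fin n) k).mulVec w = c • w
    · refine ⟨Submodule.span k {v}, ?_, ?_, ?_⟩
      · simpa [Submodule.span_singleton_eq_bot] using hv
      · intro htop
        have h1 : Module.finrank k (Submodule.span k {v}) = 1 := finrank_span_singleton hv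
        rw [htop, finrank_top, Module.finrank_fin_fun] at h1
        omega
      · intro σ w hw
        obtain ⟨c, hc⟩ := hsc σ
        rw [hc]
        exact Submodule.smul_mem _ _ hw
    · push Not at hsc
      obtain ⟨s, hs⟩ := hsc
      let T : Module.End k (Fin n → k) := Matrix.toLin' (ρ s : Matrix (Fin n) (Fin n) k)
      obtain ⟨c, hc⟩ := Module.End.exists_eigenvalue T
      have hmem : ∀ w : Fin n → k, w ∈ Module.End.eigenspace T c ↔
          (ρ s : Matrix (Fin n) (Fin n) k).mulVec w = c • w := by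
        intro w
        rw [Module.End.mem_eigenspace_iff]
        simp [T, Matrix.toLin'_apply]
      refine ⟨Module.End.eigenspace T c, hc, ?_, ?_⟩
      · intro htop
        obtain ⟨w, hw⟩ := hs c
        apply hw
        rw [← hmem, htop]
        trivial
      · intro σ w hw
        rw [hmem] at hw ⊢
        rw [hcomm, hw, Matrix.mulVec_smul]
  · refine ⟨V0, ?_, hV, hst⟩
    intro h
    rw [h] at hvV
    exact hv ((Submodule.mem_bot k).1 hvV)

end W529.CG
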