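import Mathlib
import Pool.Agent.W529.CG.Stm

set_option autoImplicit false

/-!
# Project CG: transvections lift
-/

namespace W529.CG

open Matrix NumberField
open scoped BigOperators Polynomial

theorem w110_map_transvection {A B : Type} [CommRing A] [CommRing B] {n : ℕ} (f : A →+* B)
    (r s : Fin n) (c : A) : (Matrix.transvection r s c).map f = Matrix.transvection r s (f c) := by
  ext i j
  simp only [Matrix.transvection, Matrix.map_apply, Matrix.add_apply, Matrix.one_apply,
    Matrix.single_apply, map_add]
  congr 1
  · split_ifs <;> simp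
  · split_ifs <;> simp

theorem t_LIFT : S_LIFT := by
  intro F _ _ n a π hπ hπa Γ hΓ r s hrs c
  obtain ⟨c0, hc0⟩ := Ideal.Quotient.mk_surjective c
  have hca : c0 * (1 - π) ∈ a := by
    apply Ideal.mul_mem_left
    have := a.neg_mem hπa
    rwa [neg_sub] at this
  have hcπ : Ideal.Quotient.mk (Ideal.span {π}) (c0 * (1 - π)) = c := by
    have h0 : Ideal.Quotient.mk (Ideal.span {π}) π = 0 :=
      Ideal.Quotient.eq_zero_iff_mem.2 (Ideal.mem_span_singleton_self π)
    rw [map_mul, map_sub, h0, map_one, sub_zero, mul_one, hc0]
  generalize c0 * (1 - π) = c' at hca hcπ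
  let γ : GL (Fin n) (𝓞 F) :=
    { val := Matrix.transvection r s c'
      inv := Matrix.transvection r s (-c')
      val_inv := by
        rw [Matrix.transvection_mul_transvection_same r s hrs, add_neg_cancel,
          Matrix.transvection_zero]
      inv_val := by
        rw [Matrix.transvection_mul_transvection_same r s hrs, neg_add_cancel,
          Matrix.transvection_zero] }
  have hγ : (γ : Matrix (Fin n) (Fin n) (𝓞 F)) = Matrix.transvection r s c' := rfl
  refine ⟨γ, ?_, ?_⟩
  · refine hΓ.2 _ ?_ ?_
    · refine Subgroup.mem_map.2 ⟨γ, ?_, rfl⟩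
      rw [MonoidHom.mem_ker]
      apply Units.ext
      show (Matrix.transvection r s c').map (Ideal.Quotient.mk a) = 1
      rw [w110_map_transvection, Ideal.Quotient.eq_zero_iff_mem.2 hca, Matrix.transvection_zero]
    · show ((Matrix.transvection r s c').map (algebraMap (𝓞 F) F)).det = 1
      rw [w110_map_transvection, Matrix.det_transvection_of_ne r s hrs]
  · show (Matrix.transvection r s c').map (Ideal.Quotient.mk (Ideal.span {π}))
      = Matrix.transvection r s c
    rw [w110_map_transvection, hcπ]

end W529.CG
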