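import Mathlib
import Pool.Agent.W529.CG.Stm

set_option autoImplicit false

/-!
# Project CG, part MSYM: Hecke operators on modular symbols
-/

namespace W529.CG

open scoped BigOperators
open Classical

section

variable {G : Type} [Group G] {Γ : Subgroup G} {P : Type} [MulAction G P] {W : Type}
  [AddCommGroup W] [DistribMulAction Γ W]

theorem Ht_val (g : G) (δ : HD Γ g) : ((Ht Γ g δ : Γ) : G) = g * ((δ : Γ) : G) * g⁻¹ := rfl

theorem geom (g : G) (γ : Γ) (q : Γ ⧸ HD Γ g) (x : P) :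
    g • ((q.out : Γ) : G)⁻¹ • (γ : G) • x =
      ((Ht Γ g (tw (HD Γ g) γ q) : Γ) : G) • g • (((γ⁻¹ • q).out : Γ) : G)⁻¹ • x := by
  rw [Ht_val]
  have h : (((tw (HD Γ g) γ q : HD Γ g) : Γ) : G) =
      ((q.out : Γ) : G)⁻¹ * (γ : G) * (((γ⁻¹ • q).out : Γ) : G) := rfl
  rw [h]
  simp only [smul_smul]
  congr 1
  group

theorem smul_tw (g : G) (hC : Compat W (HD Γ g) (Ht Γ g)) (γ : Γ) (q : Γ ⧸ HD Γ g) (w : W) :
    q.out • (Ht Γ g (tw (HD Γ g) γ q)) • w = γ • (γ⁻¹ • q).out • w := by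
  rw [hC, ← mul_smul, out_mul_tw, mul_smul]

theorem reindex (g : G) [Fintype (Γ ⧸ HD Γ g)] (γ : Γ) (F : Γ ⧸ HD Γ g → W) :
    ∑ q : Γ ⧸ HD Γ g, F (γ⁻¹ • q) = ∑ q : Γ ⧸ HD Γ g, F q :=
  Equiv.sum_comp (MulAction.toPerm (γ⁻¹ : Γ)) F

theorem hecke_mem (g : G) [Finite (Γ ⧸ HD Γ g)] (hC : Compat W (HD Γ g) (Ht Γ g))
    (m : P → P → W) (hm : m ∈ MS Γ P W) : heckeMS Γ g m ∈ MS Γ P W := by
  haveI := Fintype.ofFinite (Γ ⧸ HD Γ g)
  obtain ⟨hm1, hm2⟩ := hm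
  refine ⟨?_, ?_⟩
  · intro x y z
    unfold heckeMS
    simp only [finsum_eq_sum_of_fintype]
    rw [← Finset.sum_add_distrib]
    refine Finset.sum_congr rfl fun q _ => ?_
    rw [← smul_add, hm1]
  · intro γ x y
    unfold heckeMS
    simp only [finsum_eq_sum_of_fintype]
    have key : ∀ q : Γ ⧸ HD Γ g, q.out • m (g • ((q.out : Γ) : G)⁻¹ • (γ : G) • x)
        (g • ((q.out : Γ) : G)⁻¹ • (γ : G) • y) =
        γ • ((γ⁻¹ • q).out • m (g • (((γ⁻¹ • q).out : Γ) : G)⁻¹ • x)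
          (g • (((γ⁻¹ • q).out : Γ) : G)⁻¹ • y)) := by
      intro q
      rw [geom, geom, hm2, smul_tw g hC]
    rw [Finset.sum_congr rfl (fun q _ => key q), ← Finset.smul_sum]
    congr 1
    exact reindex g γ (fun q => q.out • m (g • ((q.out : Γ) : G)⁻¹ • x)
      (g • ((q.out : Γ) : G)⁻¹ • y))

end

theorem t_MSYM : S_MSYM := by
  intro G _ Γ P _ W _ _ g hfin hC m hm x₀ hδ hν
  haveI := Fintype.ofFinite (Γ ⧸ HD Γ g)
  have hTm := hecke_mem g hC m hm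
  have hm' : heckeMS Γ g m - (Nat.card (Γ ⧸ HD Γ g)) • m ∈ MS Γ P W :=
    (MS Γ P W).sub_mem hTm ((MS Γ P W).nsmul_mem hm _)
  obtain ⟨hm1, hm2⟩ := hm
  have hxx : ∀ x, m x x = 0 := by
    intro x
    have := hm1 x x x
    simpa using this
  -- the cocycle
  let f : Z1 Γ W := ⟨fun γ => m x₀ ((γ : G) • x₀), by
    intro a b
    show m x₀ (((a * b : Γ) : G) • x₀) = m x₀ ((a : G) • x₀) + a • m x₀ ((b : G) • x₀)
    rw [← hm2 a, ← mul_smul, hm1]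
    rfl⟩
  -- the Hecke operator on the cocycle
  obtain ⟨w, hw⟩ : ∃ w : W, ∀ a : Γ, heckeFun (HD Γ g) (Ht Γ g) f.1 a =
      (Nat.card (Γ ⧸ HD Γ g)) • f.1 a + (a • w - w) := by
    have h1 := hecke1_eq (HD Γ g) (Ht Γ g) hC f (fun δ => hδ δ)
    rw [hecke1_mk (HD Γ g) (Ht Γ g) hC, ← map_nsmul] at h1
    obtain ⟨w, hw⟩ := QuotientAddGroup.eq.1 h1
    refine ⟨-w, fun a => ?_⟩
    have h2 : -(heckeFun (HD Γ g) (Ht Γ g) f.1 a) + (Nat.card (Γ ⧸ HD Γ g)) • f.1 a =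
        a • w - w := hw a
    rw [smul_neg]
    have h3 : heckeFun (HD Γ g) (Ht Γ g) f.1 a = (Nat.card (Γ ⧸ HD Γ g)) • f.1 a - (a • w - w) := by
      rw [← h2]; abel
    rw [h3]; abel
  let h : Γ ⧸ HD Γ g → W := fun q => m x₀ (g • ((q.out : Γ) : G)⁻¹ • x₀)
  let B : W := ∑ q : Γ ⧸ HD Γ g, q.out • h q
  have hT : ∀ γ : Γ, heckeMS Γ g m x₀ ((γ : G) • x₀) =
      heckeFun (HD Γ g) (Ht Γ g) f.1 γ + (γ • B - B) := by
    intro γ
    unfold heckeMS heckeFun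
    simp only [finsum_eq_sum_of_fintype]
    have key : ∀ q : Γ ⧸ HD Γ g, q.out • m (g • ((q.out : Γ) : G)⁻¹ • x₀)
        (g • ((q.out : Γ) : G)⁻¹ • (γ : G) • x₀) =
        q.out • f.1 (Ht Γ g (tw (HD Γ g) γ q)) +
          (γ • ((γ⁻¹ • q).out • h (γ⁻¹ • q)) - q.out • h q) := by
      intro q
      rw [geom]
      have e1 : m (g • ((q.out : Γ) : G)⁻¹ • x₀)
          (((Ht Γ g (tw (HD Γ g) γ q) : Γ) : G) • g • (((γ⁻¹ • q).out : Γ) : G)⁻¹ • x₀) =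
          f.1 (Ht Γ g (tw (HD Γ g) γ q)) + (Ht Γ g (tw (HD Γ g) γ q)) • h (γ⁻¹ • q) - h q := by
        show _ = m x₀ (((Ht Γ g (tw (HD Γ g) γ q) : Γ) : G) • x₀) +
          (Ht Γ g (tw (HD Γ g) γ q)) • m x₀ (g • (((γ⁻¹ • q).out : Γ) : G)⁻¹ • x₀) -
            m x₀ (g • ((q.out : Γ) : G)⁻¹ • x₀)
        rw [← hm2, hm1, eq_sub_iff_add_eq', hm1]
      rw [e1, smul_sub, smul_add, smul_tw g hC]
      abel
    rw [Finset.sum_congr rfl (fun q _ => key q), Finset.sum_add_distrib, Finset.sum_sub_distrib,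
      ← Finset.smul_sum, reindex g γ (fun q => q.out • h q)]
  obtain ⟨h1', h2'⟩ := hm'
  set m' := heckeMS Γ g m - (Nat.card (Γ ⧸ HD Γ g)) • m with hm'def
  let w0 : W := B + w
  have hm'x : ∀ γ : Γ, m' x₀ ((γ : G) • x₀) = γ • w0 - w0 := by
    intro γ
    show heckeMS Γ g m x₀ ((γ : G) • x₀) - (Nat.card (Γ ⧸ HD Γ g)) • m x₀ ((γ : G) • x₀) = _
    rw [hT, hw]
    show _ = γ • (B + w) - (B + w)
    rw [smul_add]
    show (Nat.card (Γ ⧸ HD Γ g)) • m x₀ ((γ : G) • x₀) + (γ • w - w) + (γ • B - B) -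
      (Nat.card (Γ ⧸ HD Γ g)) • m x₀ ((γ : G) • x₀) = _
    abel
  let u : P → W := fun x => m' x₀ x + w0
  have hu : ∀ x y, m' x y = u y - u x := by
    intro x y
    show _ = (m' x₀ y + w0) - (m' x₀ x + w0)
    rw [← h1' x₀ x y]
    abel
  have hγu : ∀ (γ : Γ) (x : P), u ((γ : G) • x) = γ • u x := by
    intro γ x
    show m' x₀ ((γ : G) • x) + w0 = γ • (m' x₀ x + w0)
    rw [← h1' x₀ ((γ : G) • x₀) ((γ : G) • x), h2', hm'x, smul_add γ (m' x₀ x) w0]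
    abel
  have hgu : ∀ z, u (g • z) = u z := by
    intro z
    obtain ⟨ν, hν1, hν2⟩ := hν z
    rw [hν2, hγu, hν1]
  funext x y
  show heckeMS Γ g m' x y = (Nat.card (Γ ⧸ HD Γ g)) • m' x y
  unfold heckeMS
  simp only [finsum_eq_sum_of_fintype]
  have key : ∀ q : Γ ⧸ HD Γ g, q.out • m' (g • ((q.out : Γ) : G)⁻¹ • x)
      (g • ((q.out : Γ) : G)⁻¹ • y) = m' x y := by
    intro q
    have e1 : ∀ z : P, q.out • u ((((q.out : Γ) : G)⁻¹) • z) = u z := by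
      intro z
      have e2 := hγu (q.out : Γ)⁻¹ z
      have e3 : (((q.out : Γ)⁻¹ : Γ) : G) = ((q.out : Γ) : G)⁻¹ := rfl
      rw [e3] at e2
      rw [e2, smul_inv_smul]
    rw [hu, hgu, hgu, smul_sub, e1, e1, ← hu]
  rw [Finset.sum_congr rfl (fun q _ => key q), Finset.sum_const, Finset.card_univ,
    Nat.card_eq_fintype_card]

end W529.CG
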