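import Mathlib
import Pool.Agent.W529.CG.Stm

set_option autoImplicit false

/-!
# Project CG, part NORM
-/

namespace W529.CG

open NumberField NumberField.InfinitePlace
open scoped BigOperators

/-- The norm of a nonzero totally positive element is positive. -/
theorem norm_pos_of_totPos (F : Type) [Field F] [NumberField F] (x : F) (hx : x ≠ 0)
    (h : ∀ φ : F →+* ℝ, 0 < φ x) : 0 < Algebra.norm ℚ x := by
  classical
  have h1 : ((Algebra.norm ℚ x : ℚ) : ℂ) = ∏ φ : F →+* ℂ, φ x := by
    have := Algebra.norm_eq_prod_embeddings ℚ ℂ x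
    rw [eq_ratCast] at this
    rw [this]
    exact (Fintype.prod_equiv (RingHom.equivRatAlgHom F ℂ) (fun φ => φ x) (fun f => f x)
      (fun _ => by simp [RingHom.equivRatAlgHom_apply])).symm
  have h2 : ∀ w : InfinitePlace F, ∃ r : ℝ, 0 < r ∧
      ∏ φ ∈ ({φ | InfinitePlace.mk φ = w} : Finset (F →+* ℂ)), φ x = (r : ℂ) := by
    intro w
    have hf : ({φ | InfinitePlace.mk φ = w} : Finset (F →+* ℂ))
        = {w.embedding} ∪ {ComplexEmbedding.conjugate w.embedding} := by
      ext φ
      simp only [Finset.mem_filter, Finset.mem_univ, true_and, Finset.mem_union,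
        Finset.mem_singleton]
      conv_lhs => rw [← mk_embedding w, mk_eq_iff]
      rw [ComplexEmbedding.conjugate, star_involutive.eq_iff]
    rw [hf]
    by_cases hw : IsReal w
    · refine ⟨embedding_of_isReal hw x, h _, ?_⟩
      rw [ComplexEmbedding.isReal_iff.mp (isReal_iff.mp hw), Finset.union_idempotent,
        Finset.prod_singleton, embedding_of_isReal_apply hw]
    · have hne : w.embedding ≠ ComplexEmbedding.conjugate w.embedding := by
        rwa [Ne, eq_comm, ← ComplexEmbedding.isReal_iff, ← isReal_iff]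
      refine ⟨Complex.normSq (w.embedding x), ?_, ?_⟩
      · rw [Complex.normSq_pos]
        exact (map_ne_zero _).2 hx
      · have : ({w.embedding} ∪ {ComplexEmbedding.conjugate w.embedding} : Finset (F →+* ℂ))
            = {w.embedding, ComplexEmbedding.conjugate w.embedding} := rfl
        rw [this, Finset.prod_pair hne, ComplexEmbedding.conjugate_coe_eq, Complex.mul_conj]
  choose r hr hr' using h2
  have h3 : ((Algebra.norm ℚ x : ℚ) : ℂ) = ((∏ w : InfinitePlace F, r w : ℝ) : ℂ) := by
    rw [h1, ← Finset.prod_fiberwise Finset.univ InfinitePlace.mk (fun φ => φ x),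
      Complex.ofReal_prod]
    exact Finset.prod_congr rfl (fun w _ => hr' w)
  have h4 : ((Algebra.norm ℚ x : ℚ) : ℝ) = ∏ w : InfinitePlace F, r w := by
    exact_mod_cast h3
  have h5 : (0 : ℝ) < ((Algebra.norm ℚ x : ℚ) : ℝ) := by
    rw [h4]; exact Finset.prod_pos (fun w _ => hr w)
  exact_mod_cast h5

/-- The norm of an element that is 1 modulo p is 1 modulo p. -/
theorem norm_mod (F : Type) [Field F] [NumberField F] (p : ℕ) (x y : 𝓞 F)
    (h : x = 1 + (p : 𝓞 F) * y) : ((Algebra.norm ℤ x : ℤ) : ZMod p) = 1 := by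
  classical
  have b := Module.Free.chooseBasis ℤ (𝓞 F)
  rw [Algebra.norm_eq_matrix_det b x]
  have h1 : Algebra.leftMulMatrix b x = 1 + (p : ℤ) • Algebra.leftMulMatrix b y := by
    have h2 : x = 1 + (p : ℤ) • y := by rw [h]; simp
    rw [h2, map_add, map_one, map_zsmul]
  have h3 : ((Algebra.leftMulMatrix b x).det : ZMod p)
      = ((Int.castRingHom (ZMod p)).mapMatrix (Algebra.leftMulMatrix b x)).det := by
    rw [← RingHom.map_det]; rfl
  rw [h3, h1]
  have h4 : (Int.castRingHom (ZMod p)).mapMatrix (1 + (p : ℤ) • Algebra.leftMulMatrix b y) = 1 := by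
    rw [map_add, map_one, map_zsmul]
    ext i j
    simp
  rw [h4, Matrix.det_one]

theorem t_NORM : S_NORM := by
  intro F _ _ p hp π hpos hmem
  obtain ⟨y, hy⟩ := Ideal.mem_span_singleton'.1 hmem
  have hπ : π = 1 + (p : 𝓞 F) * y := by
    rw [mul_comm, hy]; ring
  have hne : π ≠ 0 := by
    intro h0
    have hz := norm_mod F p π y hπ
    rw [h0, Algebra.norm_zero, Int.cast_zero] at hz
    have h1p : Fact (1 < p) := ⟨hp.1.one_lt⟩
    exact zero_ne_one hz
  have h1 := norm_mod F p π y hπ
  have h2 : 0 < Algebra.norm ℚ (π : F) :=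
    norm_pos_of_totPos F (π : F) (by simpa using hne) hpos
  have h3 : (0 : ℤ) < Algebra.norm ℤ π := by
    rw [← Algebra.coe_norm_int] at h2
    exact_mod_cast h2
  have h4 : ((qn π : ℕ) : ℤ) = Algebra.norm ℤ π := by
    unfold qn
    rw [Ideal.absNorm_span_singleton]
    exact Int.natAbs_of_nonneg h3.le
  have h5 : ((qn π : ℕ) : ZMod p) = (((qn π : ℕ) : ℤ) : ZMod p) := by simp
  rw [h5, h4, h1]

end W529.CG
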