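import Pool.Agent.W529.CG.Stm

set_option autoImplicit false

/-!
# Project CG, part RES (helper89)
-/

namespace W529.CG

open Matrix NumberField
open scoped BigOperators Polynomial LinearAlgebra.Projectivization

namespace TRES

variable (F : Type) [Field F] [NumberField F] (n : ℕ)

lemma PC_mono {m m' : Ideal (𝓞 F)} (h : m ≤ m') : PC F n m ≤ PC F n m' := by
  unfold PC
  refine Subgroup.map_mono ?_
  intro γ hγ
  rw [MonoidHom.mem_ker] at hγ ⊢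
  apply Units.ext
  ext i j
  have h1 := congrArg (fun g : GL (Fin n) (𝓞 F ⧸ m) =>
    (g : Matrix (Fin n) (Fin n) (𝓞 F ⧸ m)) i j) hγ
  have h2 : Ideal.Quotient.mk m ((γ : Matrix (Fin n) (Fin n) (𝓞 F)) i j) =
      (1 : Matrix (Fin n) (Fin n) (𝓞 F ⧸ m)) i j := h1
  show Ideal.Quotient.mk m' ((γ : Matrix (Fin n) (Fin n) (𝓞 F)) i j) =
      (1 : Matrix (Fin n) (Fin n) (𝓞 F ⧸ m')) i j
  have h3 := congrArg (Ideal.Quotient.factor h) h2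
  rw [Ideal.Quotient.factor_mk] at h3
  rw [h3, Matrix.one_apply, Matrix.one_apply]
  split_ifs <;> simp

lemma inf_ne_bot {a b : Ideal (𝓞 F)} (ha : a ≠ ⊥) (hb : b ≠ ⊥) : a ⊓ b ≠ ⊥ := by
  intro h
  have h1 : a * b ≤ ⊥ := h ▸ Ideal.mul_le_inf
  rcases Ideal.mul_eq_bot.1 (le_bot_iff.1 h1) with h2 | h2
  · exact ha h2
  · exact hb h2

end TRES

open TRES in
theorem t_RES : S_RES := by
  intro F _ _ n p _ hC a b ha hb Γ hΓ W _ _ _ hW hact f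
  have hcong : IsCong (a ⊓ b) (Γ ⊓ PC F n b) := by
    refine ⟨inf_le_left.trans hΓ.1, fun γ hγ hdet => ?_⟩
    exact ⟨hΓ.2 γ (PC_mono F n inf_le_left hγ) hdet, PC_mono F n inf_le_right hγ⟩
  have hf := f.2
  let φ : (Γ ⊓ PC F n b : Subgroup (GL (Fin n) F)) →* Multiplicative W :=
    MonoidHom.mk' (fun γ => Multiplicative.ofAdd (f.1 ⟨γ.1, γ.2.1⟩)) (by
      intro γ δ
      have h1 : f.1 (⟨γ.1, γ.2.1⟩ * ⟨δ.1, δ.2.1⟩) =
          f.1 ⟨γ.1, γ.2.1⟩ + (⟨γ.1, γ.2.1⟩ : Γ) • f.1 ⟨δ.1, δ.2.1⟩ := hf _ _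
      rw [hact ⟨γ.1, γ.2.1⟩ γ.2.2] at h1
      exact congrArg Multiplicative.ofAdd h1)
  have hpg : IsPGroup p (Multiplicative W) := by
    intro g
    obtain ⟨k, hk⟩ := hW g.toAdd
    exact ⟨k, congrArg Multiplicative.ofAdd hk⟩
  obtain ⟨k, hk⟩ := IsPGroup.iff_card.1 (hpg.to_subgroup φ.range)
  obtain ⟨m0, hm0, hm⟩ := hC (a ⊓ b) (inf_ne_bot F ha hb) (Γ ⊓ PC F n b) hcong φ.ker
    inferInstance ⟨k, by rw [Subgroup.index_ker]; exact hk⟩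
  refine ⟨m0 ⊓ b, inf_ne_bot F hm0 hb, fun γ hγ => ?_⟩
  have h1 : (γ : GL (Fin n) F) ∈ PC F n b := PC_mono F n inf_le_right hγ
  have h2 := hm ⟨γ.1, γ.2, h1⟩ (PC_mono F n inf_le_left hγ)
  rw [MonoidHom.mem_ker] at h2
  exact congrArg Multiplicative.toAdd h2

end W529.CG
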