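import Pool.Agent.W529.CG.Stm

set_option autoImplicit false

/-!
# Project CG, part STAB (helper140)
-/

namespace W529.CG

open Matrix NumberField
open scoped BigOperators Polynomial LinearAlgebra.Projectivization

namespace TSTAB

theorem gi_conj {F : Type} [Field F] {n : ℕ} (u : Fˣ) (i : ℕ) (X : GL (Fin n) F)
    (a b : Fin n) :
    ((gi u i * X * (gi u i)⁻¹ : GL (Fin n) F) : Matrix (Fin n) (Fin n) F) a b =
      (if n ≤ (a : ℕ) + i then (u : F) else 1) * (X : Matrix (Fin n) (Fin n) F) a b *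
        (if n ≤ (b : ℕ) + i then ((u⁻¹ : Fˣ) : F) else 1) := by
  show (Matrix.diagonal (fun a : Fin n => if n ≤ (a : ℕ) + i then (u : F) else 1) *
    (X : Matrix (Fin n) (Fin n) F) *
    Matrix.diagonal (fun a : Fin n => if n ≤ (a : ℕ) + i then ((u⁻¹ : Fˣ) : F) else 1)) a b = _
  rw [Matrix.mul_diagonal, Matrix.diagonal_mul]

theorem cond_iff {R : Type} [CommRing R] (n i : ℕ) (π : R) (γ : GL (Fin n) R) :
    (∀ v ∈ Vi (R ⧸ Ideal.span {π}) n i,
      (((GeneralLinearGroup.map (Ideal.Quotient.mk (Ideal.span {π})) γ :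
      GL (Fin n) (R ⧸ Ideal.span {π})) :
        Matrix (Fin n) (Fin n) (R ⧸ Ideal.span {π}))).mulVec v
        ∈ Vi (R ⧸ Ideal.span {π}) n i) ↔
    ∀ a b : Fin n, (a : ℕ) + i < n → n ≤ (b : ℕ) + i →
      π ∣ (γ : Matrix (Fin n) (Fin n) R) a b := by
  have hz : ∀ a b : Fin n, ((GeneralLinearGroup.map (Ideal.Quotient.mk (Ideal.span {π})) γ :
      GL (Fin n) (R ⧸ Ideal.span {π})) : Matrix (Fin n) (Fin n) (R ⧸ Ideal.span {π})) a b = 0 ↔
      π ∣ (γ : Matrix (Fin n) (Fin n) R) a b := by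
    intro a b
    rw [← Ideal.mem_span_singleton, ← Ideal.Quotient.eq_zero_iff_mem]
    rfl
  constructor
  · intro h a b ha hb
    have hv : (Pi.single b 1 : Fin n → R ⧸ Ideal.span {π}) ∈ Vi (R ⧸ Ideal.span {π}) n i := by
      intro c hc
      have hcb : c ≠ b := by
        rintro rfl
        omega
      exact Pi.single_eq_of_ne hcb 1
    have h1 := h _ hv a ha
    rw [Matrix.mulVec_single_one] at h1
    exact (hz a b).1 h1
  · intro h v hv a ha
    show ∑ b, _ * v b = 0
    refine Finset.sum_eq_zero fun b _ => ?_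
    by_cases hb : n ≤ (b : ℕ) + i
    · rw [(hz a b).2 (h a b ha hb), zero_mul]
    · rw [hv b (by omega), mul_zero]

end TSTAB

open TSTAB in
theorem t_STAB : S_STAB := by
  classical
  intro F _ _ n a π u hu hπ h1 Γ hΓ i hi γ hγ
  rw [cond_iff]
  have hπF : ((π : 𝓞 F) : F) ≠ 0 := by
    rw [← hu]
    exact u.ne_zero
  have hui : ((u⁻¹ : Fˣ) : F) = ((π : 𝓞 F) : F)⁻¹ := by
    rw [Units.val_inv_eq_inv_val, hu]
  constructor
  · intro hm c d hc hd
    obtain ⟨δ, hδ⟩ := hΓ.1 hm
    have h2 := gi_conj u i (GeneralLinearGroup.map (algebraMap (𝓞 F) F) γ) c d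
    rw [← hδ, if_neg (by omega), if_pos hd, one_mul, hui] at h2
    have h3 : (algebraMap (𝓞 F) F) ((δ : Matrix (Fin n) (Fin n) (𝓞 F)) c d) =
        (algebraMap (𝓞 F) F) ((γ : Matrix (Fin n) (Fin n) (𝓞 F)) c d) * ((π : 𝓞 F) : F)⁻¹ := h2
    refine ⟨(δ : Matrix (Fin n) (Fin n) (𝓞 F)) c d, ?_⟩
    have hinj : Function.Injective (algebraMap (𝓞 F) F) := RingOfIntegers.coe_injective
    apply hinj
    rw [map_mul, h3]
    show _ = ((π : 𝓞 F) : F) * _
    field_simp
  · intro hd
    -- the integral conjugate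
    have hex : ∀ c d : Fin n, ∃ z : 𝓞 F,
        z * (if n ≤ (d : ℕ) + i then π else 1) =
          (if n ≤ (c : ℕ) + i then π else 1) * (γ : Matrix (Fin n) (Fin n) (𝓞 F)) c d ∧
        z - (γ : Matrix (Fin n) (Fin n) (𝓞 F)) c d ∈ a := by
      intro c d
      by_cases hc : n ≤ (c : ℕ) + i
      · by_cases hdd : n ≤ (d : ℕ) + i
        · refine ⟨(γ : Matrix (Fin n) (Fin n) (𝓞 F)) c d, ?_, ?_⟩
          · rw [if_pos hc, if_pos hdd, mul_comm]
          · rw [sub_self]; exact a.zero_mem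
        · refine ⟨π * (γ : Matrix (Fin n) (Fin n) (𝓞 F)) c d, ?_, ?_⟩
          · rw [if_pos hc, if_neg hdd, mul_one]
          · have : π * (γ : Matrix (Fin n) (Fin n) (𝓞 F)) c d -
              (γ : Matrix (Fin n) (Fin n) (𝓞 F)) c d =
              (γ : Matrix (Fin n) (Fin n) (𝓞 F)) c d * (π - 1) := by ring
            rw [this]
            exact a.mul_mem_left _ h1
      · by_cases hdd : n ≤ (d : ℕ) + i
        · obtain ⟨z, hz⟩ := hd c d (by omega) hdd
          refine ⟨z, ?_, ?_⟩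
          · rw [if_neg hc, if_pos hdd, one_mul, hz, mul_comm]
          · rw [hz]
            have : z - π * z = (-z) * (π - 1) := by ring
            rw [this]
            exact a.mul_mem_left _ h1
        · refine ⟨(γ : Matrix (Fin n) (Fin n) (𝓞 F)) c d, ?_, ?_⟩
          · rw [if_neg hc, if_neg hdd, mul_one, one_mul]
          · rw [sub_self]; exact a.zero_mem
    choose M hM1 hM2 using hex
    let gd : Fin n → 𝓞 F := fun c => if n ≤ (c : ℕ) + i then π else 1
    have hmul : (Matrix.of M) * Matrix.diagonal gd =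
        Matrix.diagonal gd * (γ : Matrix (Fin n) (Fin n) (𝓞 F)) := by
      ext1 c d
      rw [Matrix.mul_diagonal, Matrix.diagonal_mul]
      exact hM1 c d
    have hgd0 : (Matrix.diagonal gd).det ≠ 0 := by
      rw [Matrix.det_diagonal]
      refine Finset.prod_ne_zero_iff.2 fun c _ => ?_
      simp only [gd]
      split_ifs
      · exact hπ.ne_zero
      · exact one_ne_zero
    have hdet : (Matrix.of M).det = (γ : Matrix (Fin n) (Fin n) (𝓞 F)).det := by
      have h3 := congrArg Matrix.det hmul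
      rw [Matrix.det_mul, Matrix.det_mul, mul_comm] at h3
      exact mul_left_cancel₀ hgd0 h3
    have hunit : IsUnit (Matrix.of M).det := by
      rw [hdet]
      exact (Matrix.isUnit_iff_isUnit_det _).1 γ.isUnit
    let δ : GL (Fin n) (𝓞 F) := GeneralLinearGroup.mk'' (Matrix.of M) hunit
    have hδ : (δ : Matrix (Fin n) (Fin n) (𝓞 F)) = Matrix.of M := rfl
    have hδg : GeneralLinearGroup.map (algebraMap (𝓞 F) F) δ =
        gi u i * GeneralLinearGroup.map (algebraMap (𝓞 F) F) γ * (gi u i)⁻¹ := by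
      apply Units.ext
      ext1 c d
      rw [gi_conj]
      show (algebraMap (𝓞 F) F) (M c d) = _ *
        (algebraMap (𝓞 F) F) ((γ : Matrix (Fin n) (Fin n) (𝓞 F)) c d) * _
      have h4 := congrArg (algebraMap (𝓞 F) F) (hM1 c d)
      rw [map_mul, map_mul] at h4
      rw [hui, hu]
      have e : algebraMap (𝓞 F) F π = ((π : 𝓞 F) : F) := rfl
      by_cases hc : n ≤ (c : ℕ) + i
      · by_cases hdd : n ≤ (d : ℕ) + i
        · rw [if_pos hc, if_pos hdd] at h4 ⊢
          rw [e] at h4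
          have h5 := mul_right_cancel₀ hπF (h4.trans (mul_comm _ _))
          rw [h5]
          field_simp
        · rw [if_pos hc, if_neg hdd] at h4 ⊢
          rw [e, map_one] at h4
          linear_combination h4
      · by_cases hdd : n ≤ (d : ℕ) + i
        · rw [if_neg hc, if_pos hdd] at h4 ⊢
          rw [e, map_one] at h4
          field_simp
          linear_combination h4
        · rw [if_neg hc, if_neg hdd] at h4 ⊢
          rw [map_one] at h4
          linear_combination h4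
    have hker : GeneralLinearGroup.map (n := Fin n) (Ideal.Quotient.mk a) (δ * γ⁻¹) = 1 := by
      have h5 : GeneralLinearGroup.map (n := Fin n) (Ideal.Quotient.mk a) δ =
          GeneralLinearGroup.map (n := Fin n) (Ideal.Quotient.mk a) γ := by
        apply Units.ext
        ext1 c d
        show Ideal.Quotient.mk a (M c d) =
          Ideal.Quotient.mk a ((γ : Matrix (Fin n) (Fin n) (𝓞 F)) c d)
        exact (Ideal.Quotient.eq).2 (hM2 c d)
      rw [map_mul, map_inv, h5, mul_inv_cancel]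
    have hPC : GeneralLinearGroup.map (algebraMap (𝓞 F) F) (δ * γ⁻¹) ∈ PC F n a :=
      ⟨δ * γ⁻¹, hker, rfl⟩
    have hdet1 : Matrix.det ((GeneralLinearGroup.map (algebraMap (𝓞 F) F) (δ * γ⁻¹) :
        GL (Fin n) F) : Matrix (Fin n) (Fin n) F) = 1 := by
      have h6 : Matrix.det ((δ * γ⁻¹ : GL (Fin n) (𝓞 F)) : Matrix (Fin n) (Fin n) (𝓞 F)) = 1 := by
        have h7 : ((δ * γ⁻¹ : GL (Fin n) (𝓞 F)) : Matrix (Fin n) (Fin n) (𝓞 F)).det *
            (γ : Matrix (Fin n) (Fin n) (𝓞 F)).det =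
            (γ : Matrix (Fin n) (Fin n) (𝓞 F)).det := by
          rw [← Matrix.det_mul, ← Units.val_mul, inv_mul_cancel_right, hδ, hdet]
        have h8 : (γ : Matrix (Fin n) (Fin n) (𝓞 F)).det ≠ 0 :=
          ((Matrix.isUnit_iff_isUnit_det _).1 γ.isUnit).ne_zero
        exact mul_right_cancel₀ h8 (h7.trans (one_mul _).symm)
      have h9 : ((GeneralLinearGroup.map (algebraMap (𝓞 F) F) (δ * γ⁻¹) :
        GL (Fin n) F) : Matrix (Fin n) (Fin n) F) =
        (algebraMap (𝓞 F) F).mapMatrix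
          ((δ * γ⁻¹ : GL (Fin n) (𝓞 F)) : Matrix (Fin n) (Fin n) (𝓞 F)) := rfl
      rw [h9, ← RingHom.map_det, h6, map_one]
    have hfin := Γ.mul_mem (hΓ.2 _ hPC hdet1) hγ
    rw [← map_mul, inv_mul_cancel_right, hδg] at hfin
    exact hfin

end W529.CG
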