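import Mathlib
import Pool.Agent.W529.CG.Stm

set_option autoImplicit false

/-!
# Project CG, part TRANS (proved by helper103)
-/

namespace W529.CG

open Matrix

section Trans

variable {k : Type} [Field k] {n : ℕ}

/-- M is the matrix of an element of H. -/
def InH (H : Subgroup (GL (Fin n) k)) (M : Matrix (Fin n) (Fin n) k) : Prop :=
  ∃ h ∈ H, (h : Matrix (Fin n) (Fin n) k) = M

lemma InH.mul {H : Subgroup (GL (Fin n) k)} {M N : Matrix (Fin n) (Fin n) k}
    (hM : InH H M) (hN : InH H N) : InH H (M * N) := by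
  obtain ⟨a, ha, rfl⟩ := hM
  obtain ⟨b, hb, rfl⟩ := hN
  exact ⟨a * b, H.mul_mem ha hb, rfl⟩

lemma InH.one (H : Subgroup (GL (Fin n) k)) : InH H 1 := ⟨1, H.one_mem, rfl⟩

lemma InH.list (H : Subgroup (GL (Fin n) k)) (L : List (Matrix (Fin n) (Fin n) k))
    (h : ∀ M ∈ L, InH H M) : InH H L.prod := by
  induction L with
  | nil => simpa using InH.one H
  | cons a L ih =>
    rw [List.prod_cons]
    exact (h a (by simp)).mul (ih fun M hM => h M (by simp [hM]))

lemma ring_id1 {R : Type} [Ring R] (A B P Q : R) (h1 : A * B = -P) (h2 : A * A = 0)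
    (h3 : B * A = -Q) (h4 : P * A = A) :
    (1 + A) * (1 + B) * (1 + A) = 1 - P - Q + A + B := by
  have : (1 + A) * (1 + B) * (1 + A) =
      1 + A + B + A * B + A + A * A + B * A + (A * B) * A := by noncomm_ring
  rw [this, h1, h2, h3, neg_mul, h4]; abel

lemma ring_id2 {R : Type} [Ring R] (A B A' B' P Q U V : R)
    (hPP : P * P = P) (hQQ : Q * Q = Q) (hPQ : P * Q = 0) (hQP : Q * P = 0)
    (hAP : A * P = 0) (hAQ : A * Q = A) (hBP : B * P = B) (hBQ : B * Q = 0)
    (hPA : P * A' = A') (hQA : Q * A' = 0) (hPB : P * B' = 0) (hQB : Q * B' = B')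
    (hAA : A * A' = 0) (hBB : B * B' = 0) (hAB : A * B' = U) (hBA : B * A' = V) :
    (1 - P - Q + A + B) * (1 - P - Q + A' + B') = 1 - P - Q + U + V := by
  have : (1 - P - Q + A + B) * (1 - P - Q + A' + B') =
      1 - P - Q + A' + B' - P + P * P + P * Q - P * A' - P * B'
      - Q + Q * P + Q * Q - Q * A' - Q * B'
      + A - A * P - A * Q + A * A' + A * B'
      + B - B * P - B * Q + B * A' + B * B' := by noncomm_ring
  rw [this, hPP, hQQ, hPQ, hQP, hAP, hAQ, hBP, hBQ, hPA, hQA, hPB, hQB, hAA, hBB, hAB, hBA]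
  abel

lemma weyl (r s : Fin n) (hrs : r ≠ s) (c d : k) (hc : c * d = 1) :
    transvection r s c * transvection s r (-d) * transvection r s c =
      1 - single r r 1 - single s s 1 + single r s c + single s r (-d) := by
  unfold transvection
  apply ring_id1
  · rw [single_mul_single_same, mul_neg, hc, single_neg]
  · exact single_mul_single_of_ne _ _ _ _ hrs.symm _
  · rw [single_mul_single_same, neg_mul, mul_comm, hc, single_neg]
  · rw [single_mul_single_same, one_mul]

lemma weyl2 (r s : Fin n) (hrs : r ≠ s) (c d : k) (hc : c * d = 1) :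
    (transvection r s c * transvection s r (-d) * transvection r s c) *
      (transvection r s (-1) * transvection s r (-(-1)) * transvection r s (-1)) =
      1 - single r r 1 - single s s 1 + single r r c + single s s d := by
  rw [weyl r s hrs c d hc, weyl r s hrs (-1) (-1) (by ring)]
  apply ring_id2
  all_goals first
    | (rw [single_mul_single_same]; congr 1; ring)
    | exact single_mul_single_of_ne _ _ _ _ hrs _
    | exact single_mul_single_of_ne _ _ _ _ hrs.symm _

/-- the diagonal matrices of H -/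
def DH (H : Subgroup (GL (Fin n) k)) : Submonoid (Fin n → k) where
  carrier := {d | InH H (diagonal d)}
  one_mem' := by
    show InH H (diagonal 1)
    have : (diagonal (1 : Fin n → k)) = 1 := diagonal_one
    rw [this]; exact InH.one H
  mul_mem' := by
    intro a b ha hb
    show InH H (diagonal (a * b))
    have : diagonal (a * b) = diagonal a * diagonal b := by
      rw [diagonal_mul_diagonal]; rfl
    rw [this]; exact InH.mul ha hb

lemma diag_two {H : Subgroup (GL (Fin n) k)}
    (hT : ∀ (r s : Fin n) (_ : r ≠ s) (c : k), InH H (transvection r s c))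
    (r s : Fin n) (hrs : r ≠ s) (c d : k) (hc : c * d = 1) :
    (Pi.mulSingle r c * Pi.mulSingle s d : Fin n → k) ∈ DH H := by
  show InH H (diagonal _)
  have h1 := ((hT r s hrs c).mul (hT s r hrs.symm (-d))).mul (hT r s hrs c)
  have h2 := ((hT r s hrs (-1)).mul (hT s r hrs.symm (-(-1)))).mul (hT r s hrs (-1))
  have h3 := h1.mul h2
  rw [weyl2 r s hrs c d hc] at h3
  convert h3 using 1
  ext a b
  by_cases hab : a = b
  · subst hab
    rw [diagonal_apply_eq]
    by_cases har : a = r
    · subst har
      simp [Matrix.single_apply, hrs, hrs.symm, Pi.mulSingle_eq_of_ne hrs]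
    · by_cases has : a = s
      · subst has
        simp [Matrix.single_apply, hrs, hrs.symm, har, Ne.symm har]
      · simp [Matrix.single_apply, har, has, Ne.symm har, Ne.symm has]
  · rw [diagonal_apply_ne _ hab]
    simp only [Matrix.add_apply, Matrix.sub_apply, Matrix.one_apply_ne hab, Matrix.single_apply]
    have h5 : ∀ x : Fin n, ¬ (x = a ∧ x = b) := fun x hx => hab (hx.1.symm.trans hx.2)
    simp [h5]

lemma diag_mem {H : Subgroup (GL (Fin n) k)}
    (hT : ∀ (r s : Fin n) (_ : r ≠ s) (c : k), InH H (transvection r s c))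
    (d : Fin n → k) (hd : ∏ i, d i = 1) : d ∈ DH H := by
  rcases Nat.eq_zero_or_pos n with hn | hn
  · subst hn
    have : d = 1 := Subsingleton.elim _ _
    rw [this]; exact (DH H).one_mem
  let s : Fin n := ⟨0, hn⟩
  have hne : ∀ i, d i ≠ 0 := by
    intro i hi
    rw [Finset.prod_eq_zero (Finset.mem_univ i) hi] at hd
    exact zero_ne_one hd
  have key : d = ∏ j : Fin n, (Pi.mulSingle j (d j) * Pi.mulSingle s (d j)⁻¹ : Fin n → k) := by
    rw [Finset.prod_mul_distrib, Finset.univ_prod_mulSingle]
    have h1 : ∏ j : Fin n, (Pi.mulSingle s (d j)⁻¹ : Fin n → k) = 1 := by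
      have h2 := (map_prod (MonoidHom.mulSingle (fun _ : Fin n => k) s) (fun j => (d j)⁻¹)
        Finset.univ).symm
      have h3 : ∏ j : Fin n, (d j)⁻¹ = 1 := by
        rw [Finset.prod_inv_distrib, hd, inv_one]
      rw [h3, map_one] at h2
      exact h2
    rw [h1, mul_one]
  rw [key]
  refine Submonoid.prod_mem _ fun j _ => ?_
  by_cases hj : j = s
  · subst hj
    rw [← Pi.mulSingle_mul, mul_inv_cancel₀ (hne _), Pi.mulSingle_one]
    exact (DH H).one_mem
  · exact diag_two hT j s hj _ _ (mul_inv_cancel₀ (hne j))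

lemma det_one_mem {H : Subgroup (GL (Fin n) k)}
    (hT : ∀ (r s : Fin n) (_ : r ≠ s) (c : k), InH H (transvection r s c))
    (M : Matrix (Fin n) (Fin n) k) (hM : M.det = 1) : InH H M := by
  obtain ⟨L, L', D, rfl⟩ := Pivot.exists_list_transvec_mul_diagonal_mul_list_transvec M
  have hL : ∀ L : List (TransvectionStruct (Fin n) k),
      InH H (L.map TransvectionStruct.toMatrix).prod := by
    intro L
    apply InH.list
    intro M hM
    obtain ⟨t, _, rfl⟩ := List.mem_map.1 hM
    exact hT t.i t.j t.hij t.c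
  rw [det_mul, det_mul, TransvectionStruct.det_toMatrix_prod,
    TransvectionStruct.det_toMatrix_prod, one_mul, mul_one, det_diagonal] at hM
  exact ((hL L).mul (diag_mem hT D hM)).mul (hL L')

end Trans

theorem t_TRANS : S_TRANS := by
  intro k _ n H hT V V' hV
  by_cases hb : V = ⊥
  · subst hb
    rw [finrank_bot] at hV
    have : V' = ⊥ := Submodule.finrank_eq_zero.1 hV.symm
    subst this
    exact ⟨1, H.one_mem, by simp⟩
  obtain ⟨u, huV, hu0⟩ := Submodule.exists_mem_ne_zero_of_ne_bot hb
  obtain ⟨f, hf⟩ := Module.Projective.exists_dual_eq_one k hu0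
  obtain ⟨g, hg⟩ := Submodule.exists_linearEquiv_restrict_eq
    (LinearEquiv.ofFinrankEq V V' hV)
  have hgV : V.map (g : (Fin n → k) →ₗ[k] (Fin n → k)) = V' := by
    apply Submodule.eq_of_le_of_finrank_eq
    · rintro _ ⟨x, hx, rfl⟩
      have h1 := hg ⟨x, hx⟩
      show g x ∈ V'
      rw [← h1]
      exact Subtype.property _
    · rw [← hV]
      exact LinearEquiv.finrank_map_eq g V
  set δ : k := LinearMap.det (g : (Fin n → k) →ₗ[k] (Fin n → k)) with hδ
  have hδ0 : δ ≠ 0 := by
    have := LinearEquiv.isUnit_det' g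
    exact this.ne_zero
  set s : (Fin n → k) →ₗ[k] (Fin n → k) := LinearMap.transvection f ((δ⁻¹ - 1) • u) with hs
  have hdets : LinearMap.det s = δ⁻¹ := by
    rw [hs, LinearMap.transvection.det, map_smul, hf]
    simp
  have hsV : V.map s = V := by
    apply Submodule.eq_of_le_of_finrank_eq
    · rintro _ ⟨x, hx, rfl⟩
      rw [hs, LinearMap.transvection.apply]
      exact V.add_mem hx (V.smul_mem _ (V.smul_mem _ huV))
    · have hinj : Function.Injective s := by
        have h2 : IsUnit (LinearMap.det s) := by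
          rw [hdets]; exact (inv_ne_zero hδ0).isUnit
        exact (LinearMap.equivOfDetNeZero s h2.ne_zero).injective
      exact (Submodule.equivMapOfInjective s hinj V).finrank_eq.symm
  have hdet : (LinearMap.toMatrix' ((g : (Fin n → k) →ₗ[k] (Fin n → k)) ∘ₗ s)).det = 1 := by
    rw [LinearMap.det_toMatrix', LinearMap.det_comp, hdets, ← hδ, mul_inv_cancel₀ hδ0]
  obtain ⟨h, hH, hh⟩ := det_one_mem (H := H) (fun r s hrs c => hT r s hrs c) _ hdet
  refine ⟨h, hH, ?_⟩
  rw [hh, Matrix.toLin'_toMatrix', Submodule.map_comp, hsV, hgV]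

end W529.CG
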