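import Mathlib
import Pool.Agent.W529.CG.Main
import Pool.Agent.W529.CG.T_CONJ
import Pool.Agent.W529.CG.T_LIFT
import Pool.Agent.W529.CG.T_STAB
import Pool.Agent.W529.CG.T_TRANS
import Pool.Agent.W529.CG.T_COUNT
import Pool.Agent.W529.CG.T_NORM
import Pool.Agent.W529.CG.T_GAL
import Pool.Agent.W529.CG.T_DEG
import Pool.Agent.W529.CG.T_RES
import Pool.Agent.W529.CG.T_CUSP
import Pool.Agent.W529.CG.T_MSYM

set_option autoImplicit false

namespace W529.CG

open Matrix NumberField
open scoped LinearAlgebra.Projectivization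

/-- A congruence subgroup Γ of `GL_n(O_F)` of level dividing b with a finite p-primary Γ-module W on
which the elements that are 1 modulo b act trivially. -/
structure Coeff (F : Type) [Field F] [NumberField F] (n p : ℕ) (b : Ideal (𝓞 F)) where
  Γ : Subgroup (GL (Fin n) F)
  W : Type
  [grp : AddCommGroup W]
  [fin : Finite W]
  [act : DistribMulAction Γ W]
  cong : IsCong b Γ
  tors : ∀ w : W, ∃ k : ℕ, p ^ k • w = 0
  triv : ∀ γ : Γ, (γ : GL (Fin n) F) ∈ PC F n b → ∀ w : W, γ • w = w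

attribute [instance] Coeff.grp Coeff.fin Coeff.act

/-- The action of `GL_n(F)` on the points of the projective space `P(F^n)`. -/
instance actP (F : Type) [Field F] (n : ℕ) :
    MulAction (GL (Fin n) F) (ℙ F (Fin n → F)) := inferInstance

/-- The Hecke operator `hecke1` as a function. -/
noncomputable def T1 {Γ W : Type} [Group Γ] [AddCommGroup W] [DistribMulAction Γ W]
    (Δ : Subgroup Γ) (θ : Δ →* Γ) (c : H1 Γ W) : H1 Γ W := hecke1 Δ θ c

/-- c' is the image of the modular symbol c under the Hecke operator of g. -/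
def RM {G P W : Type} [Group G] (Γ : Subgroup G) [MulAction G P] [AddCommGroup W]
    [DistribMulAction Γ W] (g : G) (c c' : MS Γ P W) : Prop := c'.1 = heckeMS Γ g c.1

namespace Coeff

variable {F : Type} [Field F] [NumberField F] {n p : ℕ} {b : Ideal (𝓞 F)} (C : Coeff F n p b)

/-- `H⁰(Γ, W)`. -/
def h0 : Type := H0 C.Γ C.W

instance i0 : AddCommGroup C.h0 := (inferInstance : AddCommGroup (H0 C.Γ C.W))

/-- `H¹(Γ, W)`. -/
def h1 : Type := H1 C.Γ C.W

noncomputable instance i1 : AddCommGroup C.h1 := (inferInstance : AddCommGroup (H1 C.Γ C.W))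

/-- W-valued modular symbols on `P(F^n)`. -/
def ms : Type := MS C.Γ (ℙ F (Fin n → F)) C.W

instance im : AddCommGroup C.ms :=
  (inferInstance : AddCommGroup (MS C.Γ (ℙ F (Fin n → F)) C.W))

/-- The Hecke operator of the double coset Γ g Γ on `H⁰`: c' = T_g c. -/
def R0 (g : GL (Fin n) F) (c c' : C.h0) : Prop := c' = hecke0 (HD C.Γ g) c

/-- The Hecke operator of the double coset Γ g Γ on `H¹`: c' = T_g c. -/
def R1 (g : GL (Fin n) F) (c c' : C.h1) : Prop := c' = T1 (HD C.Γ g) (Ht C.Γ g) c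

/-- The Hecke operator of the double coset Γ g Γ on modular symbols: c' = T_g c. -/
def Rm (g : GL (Fin n) F) (c c' : C.ms) : Prop := RM C.Γ g c c'

end Coeff

/-- The Hecke operators are considered for these π (u is π as a unit of F). -/
def Good {F : Type} [Field F] [NumberField F] (b : Ideal (𝓞 F)) (π : 𝓞 F) (u : Fˣ) : Prop :=
  Prime π ∧ π - 1 ∈ b ∧ TotPos π ∧ (u : F) = π

/-- The Hecke polynomial `∑ (-1)^i q^(i(i-1)/2) a_i X^(n-i)`. -/
noncomputable def hpoly {κ : Type} [Field κ] (n q : ℕ) (a : ℕ → κ) : Polynomial κ :=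
  ∑ i ∈ Finset.range (n + 1), Polynomial.C ((-1) ^ i * (q : κ) ^ (i * (i - 1) / 2) * a i) *
    Polynomial.X ^ (n - i)

/-- ρ is an irreducible matrix representation of S. -/
structure IrrRep {S κ : Type} [Group S] [Field κ] (n : ℕ) (ρ : S → Matrix (Fin n) (Fin n) κ) :
    Prop where
  one : ρ 1 = 1
  mul : ∀ s t, ρ (s * t) = ρ s * ρ t
  irr : ∀ V : Submodule κ (Fin n → κ), (∀ s, ∀ v ∈ V, (ρ s).mulVec v ∈ V) → V = ⊥ ∨ V = ⊤

/-- A non-Eisenstein system: a ring homomorphism lam from T to an algebraically closed field and an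
irreducible representation ρ of dimension n of a finite quotient Gal(L/F) of the Galois group that is
attached to it. -/
structure NonEis (F : Type) [Field F] [NumberField F] (n : ℕ) (b : Ideal (𝓞 F)) (T : Type)
    [CommRing T] (τ : 𝓞 F → ℕ → T) where
  κ : Type
  [fld : Field κ]
  [alg : IsAlgClosed κ]
  lam : T →+* κ
  L : Type
  [fldL : Field L]
  [nfL : NumberField L]
  [algL : Algebra F L]
  [gal : IsGalois F L]
  ρ : (L ≃ₐ[F] L) → Matrix (Fin n) (Fin n) κ
  irr : IrrRep n ρ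
  att : ∀ (π : 𝓞 F) (u : Fˣ), Good b π u → ∀ σ : L ≃ₐ[F] L, IsFrobAt π σ →
    (ρ σ).charpoly = hpoly n (qn π) (fun i => lam (τ π i))

attribute [instance] NonEis.fld NonEis.alg NonEis.fldL NonEis.nfL NonEis.algL NonEis.gal

section

/-- For every action of T on M such that τ(π,i) acts as the i-th Hecke operator (given by the relation
R) the localisation of M at the kernel of lam vanishes. -/
def Van {F : Type} [Field F] [NumberField F] {n : ℕ} {b : Ideal (𝓞 F)} {T : Type} [CommRing T]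
    {τ : 𝓞 F → ℕ → T} (E : NonEis F n b T τ) (M : Type) [AddCommGroup M]
    (R : GL (Fin n) F → M → M → Prop) : Prop :=
  ∀ [Module T M], (∀ π u, Good b π u → ∀ i ≤ n, ∀ c, R (gi u i) c (τ π i • c)) →
    ∀ c : M, ∃ x : T, E.lam x ≠ 0 ∧ x • c = 0

variable {F : Type} [Field F] [NumberField F] {n p : ℕ} {b : Ideal (𝓞 F)} {ι : Type}
  (D : ι → Coeff F n p b) {T : Type} [CommRing T] {τ : 𝓞 F → ℕ → T} (E : NonEis F n b T τ)

/-- Vanishing of the localisation of the sum of the H^0. -/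
def VanH0 : Prop := Van E (∀ t, (D t).h0) (fun g c c' => ∀ t, (D t).R0 g (c t) (c' t))

/-- The same for H^1. -/
def VanH1 : Prop := Van E (∀ t, (D t).h1) (fun g c c' => ∀ t, (D t).R1 g (c t) (c' t))

/-- The same for modular symbols. -/
def VanMS : Prop := Van E (∀ t, (D t).ms) (fun g c c' => ∀ t, (D t).Rm g (c t) (c' t))

end

theorem final {F : Type} [Field F] [NumberField F] {n : ℕ} (hn : 2 ≤ n)
    (p : ℕ) [hp : Fact p.Prime] (hcsp : CongrProp F n p) (hcheb : RayCheb F)
    (b : Ideal (𝓞 F)) (hb : b ≠ ⊥) {ι : Type} [Finite ι] (D : ι → Coeff F n p b)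
    {T : Type} [CommRing T] {τ : 𝓞 F → ℕ → T} (E : NonEis F n b T τ) :
    VanH0 D E ∧ VanH1 D E ∧ (n = 2 → VanMS D E) := by
  let R : (E.L ≃ₐ[F] E.L) →* GL (Fin n) E.κ :=
    MonoidHom.toHomUnits ⟨⟨E.ρ, E.irr.one⟩, E.irr.mul⟩
  have hatt : Attached b E.lam τ R := by
    intro π hπ h1 h2 σ hσ
    have h0 : (π : F) ≠ 0 := by simpa using hπ.ne_zero
    exact E.att π (Units.mk0 _ h0) ⟨hπ, h1, h2, rfl⟩ σ hσ
  have hirr : Irred R := E.irr.irr
  have hmain := main t_CONJ (t_DEG t_LIFT t_STAB t_TRANS t_COUNT) t_RES t_NORM t_GAL t_CUSP t_MSYM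
    p hn hcsp hcheb (fun t => (D t).Γ) b hb (fun t => (D t).cong) (fun t => (D t).W)
    (fun t => (D t).tors) (fun t => (D t).triv) E.lam τ R hatt hirr
  refine ⟨?_, ?_, ?_⟩
  · intro inst hact
    letI : Module T (∀ t, H0 (D t).Γ (D t).W) := inst
    exact hmain.1 (fun π hπ h1 h2 u hu i hi c t => hact π u ⟨hπ, h1, h2, hu⟩ i hi c t)
  · intro inst hact
    letI : Module T (∀ t, H1 (D t).Γ (D t).W) := inst
    exact hmain.2.1 (fun π hπ h1 h2 u hu i hi c t => hact π u ⟨hπ, h1, h2, hu⟩ i hi c t)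
  · intro hn2 inst hact
    letI : Module T (∀ t, MS (D t).Γ (ℙ F (Fin n → F)) (D t).W) := inst
    exact hmain.2.2 hn2 (fun π hπ h1 h2 u hu i hi c t => hact π u ⟨hπ, h1, h2, hu⟩ i hi c t)

end W529.CG
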